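import Mathlib
import Pool.Agent.Results.MP_f8e529_co.MaximalityLowRank

set_option autoImplicit false

namespace Pool.Agent.TH846.PMDWin

open Finset
open Pool.Agent.Results.MP_f8e529_co.MaximalityLowRank.PMX

variable {α : Type} [DecidableEq α] {E : Finset α} {Fl : ℕ → Finset (Finset α)} {a : ℕ → ℕ}
  {r : ℕ}

/-- a flat of rank `i` is contained in a flat of rank `j` -/
lemma exists_above (h : FL E Fl a r) {i : ℕ} {A : Finset α} (hA : A ∈ Fl i) :
    ∀ j, i ≤ j → j ≤ r → ∃ C ∈ Fl j, A ⊆ C := by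
  intro j
  induction j with
  | zero =>
    intro hi _
    have : i = 0 := by omega
    subst this
    exact ⟨A, hA, Finset.Subset.refl _⟩
  | succ j ih =>
    intro hi hj
    rcases Nat.lt_or_ge i (j + 1) with h1 | h1
    · obtain ⟨C, hC, hAC⟩ := ih (by omega) (by omega)
      obtain ⟨e, he, heC⟩ := h.exists_out (by omega) hC
      obtain ⟨D, hD, hCD, -⟩ := h.span j C hC e he heC
      exact ⟨D, hD, hAC.trans hCD⟩
    · have : i = j + 1 := by omega
      subst this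
      exact ⟨A, hA, Finset.Subset.refl _⟩

lemma step_dvd (h : FL E Fl a r) {i j : ℕ} (hij : i ≤ j) (hj : j ≤ r) :
    (a (i + 1) - a i) ∣ (a j - a i) := by
  obtain ⟨A, hA⟩ := h.exists_fl i (by omega)
  obtain ⟨C, hC, hAC⟩ := exists_above h hA j hij hj
  exact ⟨_, by rw [mul_comm]; exact (h.btw hA hC hAC).symm⟩

/-- locate a number among the sizes of flats -/
lemma locate (h0 : a 0 = 0) (x : ℕ) : ∀ m, x ≤ a m → (∃ j ≤ m, x = a j) ∨
    (∃ i, 1 ≤ i ∧ i ≤ m ∧ a (i - 1) < x ∧ x < a i) := by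
  intro m
  induction m with
  | zero => intro hx; left; exact ⟨0, le_rfl, by omega⟩
  | succ m ih =>
    intro hx
    rcases Nat.lt_or_ge (a m) x with h1 | h1
    · rcases Nat.lt_or_ge x (a (m + 1)) with h2 | h2
      · right; exact ⟨m + 1, by omega, le_rfl, by simpa using h1, h2⟩
      · left; exact ⟨m + 1, le_rfl, by omega⟩
    · rcases ih h1 with ⟨j, hj, e⟩ | ⟨i, h2, h3, h4⟩
      · left; exact ⟨j, by omega, e⟩
      · right; exact ⟨i, h2, by omega, h4⟩

/-- summation over the flats of rank `m+1` containing `K` and contained in `C` -/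
lemma sum_part (h : FL E Fl a r) {m j : ℕ} {K C B : Finset α} (hK : K ∈ Fl m) (hC : C ∈ Fl j)
    (hKC : K ⊆ C) :
    ∑ D ∈ (Fl (m + 1)).filter (fun D => K ⊆ D ∧ D ⊆ C), ((B ∩ D).card - (B ∩ K).card) =
      (B ∩ C).card - (B ∩ K).card := by
  have h1 := (h.part hK hC B).resolve_right (fun h2 => h2 hKC)
  have e : ∀ D : Finset α, K ⊆ D → (B ∩ (D \ K)).card = (B ∩ D).card - (B ∩ K).card := by
    intro D hD
    rw [← card_sdiff_of_subset (Finset.inter_subset_inter_left hD)]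
    congr 1
    ext y
    simp only [mem_inter, mem_sdiff]
    tauto
  rw [← e C hKC, ← h1]
  apply Finset.sum_congr rfl
  intro D hD
  rw [mem_filter] at hD
  rw [e D hD.2.1]

/-- the number of flats of rank `m+1` between -/
lemma num_part (h : FL E Fl a r) {m j : ℕ} {K C : Finset α} (hK : K ∈ Fl m) (hC : C ∈ Fl j)
    (hKC : K ⊆ C) (hmj : m < j) (hj : j ≤ r) :
    1 ≤ ((Fl (m + 1)).filter (fun D => K ⊆ D ∧ D ⊆ C)).card ∧
    (m + 1 < j → 2 ≤ ((Fl (m + 1)).filter (fun D => K ⊆ D ∧ D ⊆ C)).card) := by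
  have h1 := h.btw hK hC hKC
  have h2 := h.a_lt (i := m) (j := j) hmj hj
  have h3 := h.a_succ (i := m) (by omega)
  constructor
  · by_contra hc
    have : ((Fl (m + 1)).filter (fun D => K ⊆ D ∧ D ⊆ C)).card = 0 := by omega
    rw [this] at h1
    omega
  · intro h4
    have h5 := h.a_lt (i := m + 1) (j := j) h4 hj
    by_contra hc
    have : ((Fl (m + 1)).filter (fun D => K ⊆ D ∧ D ⊆ C)).card = 0 ∨
      ((Fl (m + 1)).filter (fun D => K ⊆ D ∧ D ⊆ C)).card = 1 := by omega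
    rcases this with h6 | h6 <;> rw [h6] at h1 <;> omega

/-- if all the intermediate flats meet `B` in the same number `y` of points -/
lemma all_eq (h : FL E Fl a r) {m j y : ℕ} {K C B : Finset α} (hK : K ∈ Fl m) (hC : C ∈ Fl j)
    (hKC : K ⊆ C)
    (hy : ∀ D ∈ Fl (m + 1), K ⊆ D → D ⊆ C → (B ∩ D).card = y) :
    ((Fl (m + 1)).filter (fun D => K ⊆ D ∧ D ⊆ C)).card * (y - (B ∩ K).card) =
      (B ∩ C).card - (B ∩ K).card := by
  rw [← sum_part h hK hC hKC, Finset.sum_congr rfl (g := fun _ => y - (B ∩ K).card),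
    Finset.sum_const, smul_eq_mul]
  intro D hD
  rw [mem_filter] at hD
  rw [hy D hD.1 hD.2.1 hD.2.2]

/-- no flat two ranks up has the same (larger) number of points as all of the intermediate ones -/
lemma no_same (h : FL E Fl a r) {m x : ℕ} {K G B : Finset α} (hm : m + 2 ≤ r) (hK : K ∈ Fl m)
    (hG : G ∈ Fl (m + 2)) (hKG : K ⊆ G) (hx : (B ∩ K).card < x)
    (hJ : ∀ D ∈ Fl (m + 1), K ⊆ D → D ⊆ G → x ≤ (B ∩ D).card) : (B ∩ G).card ≠ x := by
  intro hc
  have h1 : ∀ D ∈ Fl (m + 1), K ⊆ D → D ⊆ G → (B ∩ D).card = x := by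
    intro D hD hKD hDG
    apply le_antisymm
    · rw [← hc]; exact Finset.card_le_card (Finset.inter_subset_inter_left hDG)
    · exact hJ D hD hKD hDG
  have h2 := all_eq h hK hG hKG h1
  have h3 := (num_part h hK hG hKG (by omega) hm).2 (by omega)
  rw [hc] at h2
  have h4 : 2 * (x - (B ∩ K).card) ≤
      ((Fl (m + 1)).filter (fun D => K ⊆ D ∧ D ⊆ G)).card * (x - (B ∩ K).card) :=
    Nat.mul_le_mul_right _ h3
  omega

lemma diff_le (h : FL E Fl a r) {i j : ℕ} (hij : i ≤ j) (hj : j + 1 ≤ r) :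
    a (i + 1) - a i ≤ a (j + 1) - a j := by
  have h1 := step_dvd h (i := i) (j := j + 1) (by omega) hj
  have h2 := step_dvd h (i := i) (j := j) hij (by omega)
  have h3 := h.a_le hij (by omega)
  have h4 := h.a_succ (i := j) (by omega)
  have h5 := Nat.dvd_sub h1 h2
  have h6 : a (j + 1) - a i - (a j - a i) = a (j + 1) - a j := by omega
  rw [h6] at h5
  exact Nat.le_of_dvd (by omega) h5

variable {ρ n : ℕ} {B : Finset α}

/-- many flats over a flat -/
lemma many (h : FL E Fl a (ρ + 3)) (hn : n * (a (ρ + 2) - a (ρ + 1)) = a (ρ + 3) - a (ρ + 2))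
    {m : ℕ} (hm : m ≤ ρ + 1) {J : Finset α} (hJ : J ∈ Fl m) :
    n + 1 ≤ ((Fl (m + 1)).filter (fun D => J ⊆ D ∧ D ⊆ E)).card := by
  have h1 := h.btw hJ h.top (h.sub _ J hJ)
  by_contra hc
  have h2 : ((Fl (m + 1)).filter (fun D => J ⊆ D ∧ D ⊆ E)).card ≤ n := by omega
  have h3 : a (m + 1) - a m ≤ a (ρ + 2) - a (ρ + 1) :=
    diff_le h (i := m) (j := ρ + 1) hm (by omega)
  have h4 := Nat.mul_le_mul h2 h3
  rw [h1, hn] at h4
  have h5 := h.a_lt (i := m) (j := ρ + 2) (by omega) (by omega)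
  have h6 : a (ρ + 2) < a (ρ + 3) := h.a_succ (i := ρ + 2) (by omega)
  omega

lemma step (h : FL E Fl a (ρ + 3)) (hB : B ⊆ E) (hBk : B.card = a (ρ + 2))
    (hn : n * (a (ρ + 2) - a (ρ + 1)) = a (ρ + 3) - a (ρ + 2)) {i : ℕ}
    (h4 : a (ρ + 2) - a (i + 1) < n * (a (i + 1) - a i)) {m j : ℕ} {K J0 : Finset α} (hm : m ≤ ρ)
    (hK : K ∈ Fl m) (hx : (B ∩ K).card < a j) (hij : i ≤ j) (hjm : j ≤ ρ)
    (hJ : ∀ D ∈ Fl (m + 1), K ⊆ D → a j ≤ (B ∩ D).card)
    (hJ0 : J0 ∈ Fl (m + 1)) (hKJ : K ⊆ J0) (hJc : (B ∩ J0).card = a j)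
    (hG : ∀ G ∈ Fl (m + 2), K ⊆ G → a j < (B ∩ G).card → a (j + 1) ≤ (B ∩ G).card) :
    False := by
  have hG' : ∀ G ∈ Fl (m + 1 + 1), J0 ⊆ G → a (j + 1) ≤ (B ∩ G).card := by
    intro G hGm hJG
    have h1 : K ⊆ G := hKJ.trans hJG
    apply hG G hGm h1
    have h2 : a j ≤ (B ∩ G).card := by
      rw [← hJc]; exact Finset.card_le_card (Finset.inter_subset_inter_left hJG)
    have h3 := no_same h (B := B) (x := a j) (by omega) hK hGm h1 hx
      (fun D hD hKD _ => hJ D hD hKD)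
    omega
  have h5 := sum_part h (B := B) hJ0 h.top (h.sub _ J0 hJ0)
  rw [Finset.inter_eq_left.2 hB, hBk, hJc] at h5
  have h6 : ((Fl (m + 1 + 1)).filter (fun D => J0 ⊆ D ∧ D ⊆ E)).card * (a (j + 1) - a j) ≤
      a (ρ + 2) - a j := by
    rw [← h5, ← smul_eq_mul]
    apply Finset.card_nsmul_le_sum
    intro G hGm
    rw [mem_filter] at hGm
    have := hG' G hGm.1 hGm.2.1
    omega
  have h7 := many h hn (m := m + 1) (by omega) hJ0
  have h8 : (n + 1) * (a (j + 1) - a j) ≤ a (ρ + 2) - a j := (Nat.mul_le_mul_right _ h7).trans h6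
  have h9 : a (i + 1) - a i ≤ a (j + 1) - a j := diff_le h hij (by omega)
  have h10 : n * (a (i + 1) - a i) ≤ n * (a (j + 1) - a j) := Nat.mul_le_mul_left _ h9
  have h11 : (n + 1) * (a (j + 1) - a j) = n * (a (j + 1) - a j) + (a (j + 1) - a j) := by ring
  have h12 := h.a_succ (i := j) (by omega)
  have h13 := h.a_le (i := i + 1) (j := j + 1) (by omega) (by omega)
  have h14 := h.a_le (i := j + 1) (j := ρ + 2) (by omega) (by omega)
  omega

/-- the traces of `B` on the flats of corank two -/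
lemma level (h : FL E Fl a (ρ + 3)) (hB : B ⊆ E) (hBk : B.card = a (ρ + 2))
    (hH : ∀ H ∈ Fl (ρ + 2), ∃ i ≤ ρ + 1, (B ∩ H).card = a i)
    (hn : n * (a (ρ + 2) - a (ρ + 1)) = a (ρ + 3) - a (ρ + 2))
    (h3 : ∀ i, 2 ≤ i → i ≤ ρ → ∀ d, 1 ≤ d → d < a i - a (i - 1) →
      (a (i + 1) - a i) ∣ n * d → a (ρ + 2) - a i < n * d)
    {G : Finset α} (hG : G ∈ Fl (ρ + 1)) :
    (∃ j ≤ ρ, (B ∩ G).card = a j) ∨
      (a ρ < (B ∩ G).card ∧ n * (a (ρ + 1) - (B ∩ G).card) = a (ρ + 2) - a (ρ + 1)) := by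
  have s1 := h.a_succ (i := ρ + 1) (by omega)
  have s2 := h.a_succ (i := ρ + 2) (by omega)
  have s1' : a (ρ + 1) < a (ρ + 2) := s1
  have s2' : a (ρ + 2) < a (ρ + 3) := s2
  have hnum : ((Fl (ρ + 1 + 1)).filter (fun D => G ⊆ D ∧ D ⊆ E)).card = n + 1 := by
    have h1 := h.btw hG h.top (h.sub _ G hG)
    have h2 : (n + 1) * (a (ρ + 1 + 1) - a (ρ + 1)) = a (ρ + 3) - a (ρ + 1) := by
      have e : (n + 1) * (a (ρ + 1 + 1) - a (ρ + 1)) =
        n * (a (ρ + 2) - a (ρ + 1)) + (a (ρ + 2) - a (ρ + 1)) := by ring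
      rw [e, hn]; omega
    rw [← h2] at h1
    exact Nat.eq_of_mul_eq_mul_right (by omega) h1
  have hsum := sum_part h (B := B) hG h.top (h.sub _ G hG)
  rw [Finset.inter_eq_left.2 hB, hBk] at hsum
  obtain ⟨x, hx⟩ : ∃ x, x = (B ∩ G).card := ⟨_, rfl⟩
  rw [← hx] at hsum ⊢
  have hmono : ∀ H ∈ (Fl (ρ + 1 + 1)).filter (fun D => G ⊆ D ∧ D ⊆ E), x ≤ (B ∩ H).card := by
    intro H hHm
    rw [mem_filter] at hHm
    rw [hx]; exact Finset.card_le_card (Finset.inter_subset_inter_left hHm.2.1)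
  have hxb : x ≤ a (ρ + 1) := by
    rw [hx, ← h.card (ρ + 1) G hG]
    exact Finset.card_le_card Finset.inter_subset_right
  rcases Nat.lt_or_ge (a ρ) x with hc | hc
  · right
    refine ⟨hc, ?_⟩
    have h1 : ∑ D ∈ (Fl (ρ + 1 + 1)).filter (fun D => G ⊆ D ∧ D ⊆ E), ((B ∩ D).card - x) =
        (n + 1) * (a (ρ + 1) - x) := by
      rw [← hnum, ← smul_eq_mul, ← Finset.sum_const]
      apply Finset.sum_congr rfl
      intro H hHm
      have h2 := hmono H hHm
      rw [mem_filter] at hHm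
      obtain ⟨i, hi, h5⟩ := hH H hHm.1
      have h6 : ρ < i := by
        by_contra hcon
        have := h.a_le (i := i) (j := ρ) (by omega) (by omega)
        omega
      have h7 : i = ρ + 1 := by omega
      rw [h5, h7]
    rw [hsum] at h1
    have e : (n + 1) * (a (ρ + 1) - x) = n * (a (ρ + 1) - x) + (a (ρ + 1) - x) := by ring
    omega
  · rcases locate h.a0 x ρ hc with ⟨j, hj, e⟩ | ⟨i, hi1, hi2, hi3, hi4⟩
    · left; exact ⟨j, hj, e⟩
    · exfalso
      have hi : 2 ≤ i := by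
        by_contra hcon
        have : i = 1 := by omega
        subst this
        rw [h.one] at hi4
        have := h.a0
        simp only [Nat.sub_self] at hi3
        omega
      have hval : ∀ H ∈ (Fl (ρ + 1 + 1)).filter (fun D => G ⊆ D ∧ D ⊆ E),
          ∃ j, i ≤ j ∧ j ≤ ρ + 1 ∧ (B ∩ H).card = a j := by
        intro H hHm
        have h2 := hmono H hHm
        rw [mem_filter] at hHm
        obtain ⟨j, hj, h5⟩ := hH H hHm.1
        refine ⟨j, ?_, hj, h5⟩
        by_contra hcon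
        have := h.a_le (i := j) (j := i - 1) (by omega) (by omega)
        omega
      have h5 : ∑ D ∈ (Fl (ρ + 1 + 1)).filter (fun D => G ⊆ D ∧ D ⊆ E), ((B ∩ D).card - x) =
          (n + 1) * (a i - x) +
            ∑ D ∈ (Fl (ρ + 1 + 1)).filter (fun D => G ⊆ D ∧ D ⊆ E), ((B ∩ D).card - a i) := by
        rw [← hnum, ← smul_eq_mul, ← Finset.sum_const, ← Finset.sum_add_distrib]
        apply Finset.sum_congr rfl
        intro H hHm
        obtain ⟨j, hj1, hj2, h6⟩ := hval H hHm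
        have := h.a_le (i := i) (j := j) hj1 (by omega)
        omega
      have hdv : (a (i + 1) - a i) ∣
          ∑ D ∈ (Fl (ρ + 1 + 1)).filter (fun D => G ⊆ D ∧ D ⊆ E), ((B ∩ D).card - a i) := by
        apply Finset.dvd_sum
        intro H hHm
        obtain ⟨j, hj1, hj2, h6⟩ := hval H hHm
        rw [h6]
        exact step_dvd h hj1 (by omega)
      obtain ⟨S, hS⟩ : ∃ S, S =
        ∑ D ∈ (Fl (ρ + 1 + 1)).filter (fun D => G ⊆ D ∧ D ⊆ E), ((B ∩ D).card - a i) := ⟨_, rfl⟩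
      rw [← hS] at h5 hdv
      rw [hsum] at h5
      have h6 := h.a_le (i := i) (j := ρ + 2) (by omega) (by omega)
      have h7 : a (ρ + 2) - a i = n * (a i - x) + S := by
        have e : (n + 1) * (a i - x) = n * (a i - x) + (a i - x) := by ring
        omega
      have h8 : (a (i + 1) - a i) ∣ n * (a i - x) := by
        have h9 : (a (i + 1) - a i) ∣ a (ρ + 2) - a i := step_dvd h (by omega) (by omega)
        rw [h7] at h9
        exact (Nat.dvd_add_left hdv).1 h9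
      have h10 := h3 i hi hi2 (a i - x) (by omega) (by omega) h8
      omega

lemma num_top (h : FL E Fl a (ρ + 3))
    (hn : n * (a (ρ + 2) - a (ρ + 1)) = a (ρ + 3) - a (ρ + 2)) {G : Finset α}
    (hG : G ∈ Fl (ρ + 1)) :
    ((Fl (ρ + 1 + 1)).filter (fun D => G ⊆ D ∧ D ⊆ E)).card = n + 1 := by
  have s1' : a (ρ + 1) < a (ρ + 2) := h.a_succ (i := ρ + 1) (by omega)
  have s2' : a (ρ + 2) < a (ρ + 3) := h.a_succ (i := ρ + 2) (by omega)
  have h1 := h.btw hG h.top (h.sub _ G hG)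
  have h2 : (n + 1) * (a (ρ + 1 + 1) - a (ρ + 1)) = a (ρ + 3) - a (ρ + 1) := by
    have e : (n + 1) * (a (ρ + 1 + 1) - a (ρ + 1)) =
      n * (a (ρ + 2) - a (ρ + 1)) + (a (ρ + 2) - a (ρ + 1)) := by ring
    rw [e, hn]; omega
  rw [← h2] at h1
  exact Nat.eq_of_mul_eq_mul_right (by
    show 0 < a (ρ + 2) - a (ρ + 1)
    omega) h1

/-- if all the hyperplanes over a flat of corank two meet `B` in `y` points -/
lemma top_eq (h : FL E Fl a (ρ + 3)) (hB : B ⊆ E) (hBk : B.card = a (ρ + 2))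
    (hn : n * (a (ρ + 2) - a (ρ + 1)) = a (ρ + 3) - a (ρ + 2)) {G : Finset α} {y : ℕ}
    (hG : G ∈ Fl (ρ + 1)) (hy : ∀ H ∈ Fl (ρ + 2), G ⊆ H → (B ∩ H).card = y) :
    (n + 1) * (y - (B ∩ G).card) = a (ρ + 2) - (B ∩ G).card := by
  have h1 := all_eq h (B := B) (y := y) hG h.top (h.sub _ G hG)
    (fun D hD hGD _ => hy D hD hGD)
  rw [num_top h hn hG, Finset.inter_eq_left.2 hB, hBk] at h1
  exact h1

/-- log-convexity of the differences (Fisher's inequality in the rank three intervals) -/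
lemma fisher (h : FL E Fl a r) {j : ℕ} (hj : j + 3 ≤ r) :
    (a (j + 2) - a (j + 1)) * (a (j + 2) - a (j + 1)) ≤
      (a (j + 1) - a j) * (a (j + 3) - a (j + 2)) := by
  have s0 := h.a_succ (i := j) (by omega)
  have s1 : a (j + 1) < a (j + 2) := h.a_succ (i := j + 1) (by omega)
  have s2 : a (j + 2) < a (j + 3) := h.a_succ (i := j + 2) (by omega)
  obtain ⟨A, hA⟩ := h.exists_fl j (by omega)
  obtain ⟨F, hF, hAF⟩ := exists_above h hA (j + 2) (by omega) (by omega)
  obtain ⟨e3, he3, he3F⟩ := h.exists_out (by omega) hF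
  obtain ⟨C, hC, hFC, he3C, hCu⟩ := h.span (j + 2) F hF e3 he3 he3F
  have he3A : e3 ∉ A := fun h1 => he3F (hAF h1)
  obtain ⟨P, hP, hAP, he3P, hPu⟩ := h.span j A hA e3 he3 he3A
  have hPC : P ⊆ C := hPu (j + 3) C hC (hAF.trans hFC) he3C
  have hPF' : P ∩ F = A := by
    obtain ⟨k, hk⟩ := h.inter (j + 1) P hP (j + 2) F hF
    have hne : P ∩ F ≠ P := by
      intro h1
      apply he3F
      have : e3 ∈ P ∩ F := by rw [h1]; exact he3P
      exact (mem_inter.1 this).2
    have h1 := h.lt k (P ∩ F) hk (j + 1) P hP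
      (Finset.ssubset_iff_subset_ne.2 ⟨Finset.inter_subset_left, hne⟩)
    by_contra h2
    have h3 := h.lt j A hA k (P ∩ F) hk
      (Finset.ssubset_iff_subset_ne.2 ⟨Finset.subset_inter hAP hAF, Ne.symm h2⟩)
    omega
  have hb := h.btw hP hC hPC
  have hp := (h.part hP hC (F \ A)).resolve_right (fun h2 => h2 hPC)
  have q1 : ((F \ A) ∩ (C \ P)).card = a (j + 2) - a j := by
    rw [← h.card (j + 2) F hF, ← h.card j A hA, ← card_sdiff_of_subset hAF]
    congr 1
    rw [Finset.inter_eq_left]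
    intro y hy
    rw [mem_sdiff] at hy ⊢
    refine ⟨hFC hy.1, fun hyP => hy.2 ?_⟩
    rw [← hPF']; exact mem_inter.2 ⟨hyP, hy.1⟩
  have q2 : ∑ D ∈ (Fl (j + 1 + 1)).filter (fun D => P ⊆ D ∧ D ⊆ C), ((F \ A) ∩ (D \ P)).card ≤
      ∑ D ∈ (Fl (j + 1 + 1)).filter (fun D => P ⊆ D ∧ D ⊆ C), (a (j + 1) - a j) := by
    apply Finset.sum_le_sum
    intro D hD
    rw [mem_filter] at hD
    obtain ⟨k, hk⟩ := h.inter (j + 2) F hF (j + 2) D hD.1
    have hne : F ∩ D ≠ F := by
      intro h1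
      have h2 : F ⊆ D := Finset.inter_eq_left.1 h1
      have h3 := h.eq (j + 2) F hF D hD.1 h2
      apply he3F
      rw [h3]; exact hD.2.1 he3P
    have h4 := h.card_lt_flat (i := j + 1) (by omega) hk hF Finset.inter_subset_left hne
    have h5 : (F \ A) ∩ (D \ P) ⊆ (F ∩ D) \ A := by
      intro y hy
      simp only [mem_inter, mem_sdiff] at hy ⊢
      exact ⟨⟨hy.1.1, hy.2.1⟩, hy.1.2⟩
    refine (Finset.card_le_card h5).trans ?_
    have hAs : A ⊆ F ∩ D := Finset.subset_inter hAF (hAP.trans hD.2.1)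
    rw [card_sdiff_of_subset hAs, h.card j A hA]
    omega
  rw [hp, q1, Finset.sum_const, smul_eq_mul] at q2
  obtain ⟨N, hN⟩ : ∃ N, N = ((Fl (j + 1 + 1)).filter (fun D => P ⊆ D ∧ D ⊆ C)).card := ⟨_, rfl⟩
  rw [← hN] at q2 hb
  have hb' : N * (a (j + 2) - a (j + 1)) = a (j + 3) - a (j + 1) := hb
  obtain ⟨x, hx⟩ : ∃ x, x = a (j + 1) - a j := ⟨_, rfl⟩
  obtain ⟨y, hy⟩ : ∃ y, y = a (j + 2) - a (j + 1) := ⟨_, rfl⟩
  obtain ⟨z, hz⟩ : ∃ z, z = a (j + 3) - a (j + 2) := ⟨_, rfl⟩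
  have e1 : a (j + 2) - a j = x + y := by omega
  have e2 : a (j + 3) - a (j + 1) = y + z := by omega
  rw [e1, ← hx] at q2
  rw [e2, ← hy] at hb'
  rw [← hx, ← hy, ← hz]
  have h1 : (x + y) * y ≤ (N * x) * y := Nat.mul_le_mul_right _ q2
  have h2 : (N * x) * y = (y + z) * x := by rw [← hb']; ring
  rw [h2] at h1
  nlinarith

lemma conv (h : FL E Fl a r) {m : ℕ} : ∀ j, m ≤ j → j + 2 ≤ r →
    (a (m + 2) - a (m + 1)) * (a (j + 1) - a j) ≤ (a (m + 1) - a m) * (a (j + 2) - a (j + 1)) := by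
  intro j
  induction j with
  | zero =>
    intro h1 h2
    have : m = 0 := by omega
    subst this
    rw [mul_comm]
  | succ j ih =>
    intro h1 h2
    rcases Nat.lt_or_ge m (j + 1) with h3 | h3
    · have h4 := ih (by omega) (by omega)
      have h5 := fisher h (j := j) (by omega)
      have s0 := h.a_succ (i := j) (by omega)
      obtain ⟨x, hx⟩ : ∃ x, x = a (m + 1) - a m := ⟨_, rfl⟩
      obtain ⟨x', hx'⟩ : ∃ x', x' = a (m + 2) - a (m + 1) := ⟨_, rfl⟩
      obtain ⟨y, hy⟩ : ∃ y, y = a (j + 1) - a j := ⟨_, rfl⟩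
      obtain ⟨z, hz⟩ : ∃ z, z = a (j + 2) - a (j + 1) := ⟨_, rfl⟩
      obtain ⟨w, hw⟩ : ∃ w, w = a (j + 3) - a (j + 2) := ⟨_, rfl⟩
      rw [← hx, ← hx', ← hy, ← hz] at h4
      rw [← hy, ← hz, ← hw] at h5
      show (a (m + 2) - a (m + 1)) * (a (j + 2) - a (j + 1)) ≤
        (a (m + 1) - a m) * (a (j + 3) - a (j + 2))
      rw [← hx, ← hx', ← hz, ← hw]
      have hy0 : 0 < y := by omega
      refine le_of_mul_le_mul_left ?_ hy0
      calc y * (x' * z) = (x' * y) * z := by ring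
        _ ≤ (x * z) * z := Nat.mul_le_mul_right _ h4
        _ = x * (z * z) := by ring
        _ ≤ x * (y * w) := Nat.mul_le_mul_left _ h5
        _ = y * (x * w) := by ring
    · have : m = j + 1 := by omega
      subst this
      rw [mul_comm]

lemma convSum (h : FL E Fl a r) {m : ℕ} : ∀ j, m ≤ j → j + 1 ≤ r → 
    (a (m + 2) - a (m + 1)) * (a j - a m) ≤ (a (m + 1) - a m) * (a (j + 1) - a (m + 1)) := by
  intro j
  induction j with
  | zero =>
    intro h1 h2
    have : m = 0 := by omega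
    subst this
    simp
  | succ j ih =>
    intro h1 h2
    rcases Nat.lt_or_ge m (j + 1) with h3 | h3
    · have h4 := ih (by omega) (by omega)
      have h5 := conv h (m := m) j (by omega) (by omega)
      have s1 := h.a_le (i := m) (j := j) (by omega) (by omega)
      have s2 := h.a_succ (i := j) (by omega)
      have s3 : a (j + 1) < a (j + 2) := h.a_succ (i := j + 1) (by omega)
      have s4 := h.a_le (i := m + 1) (j := j + 1) (by omega) (by omega)
      have e1 : a (j + 1) - a m = (a j - a m) + (a (j + 1) - a j) := by omega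
      have e2 : a (j + 1 + 1) - a (m + 1) = (a (j + 1) - a (m + 1)) + (a (j + 2) - a (j + 1)) := by
        show a (j + 2) - a (m + 1) = _
        omega
      rw [e1, e2, mul_add, mul_add]
      exact Nat.add_le_add h4 h5
    · have : m = j + 1 := by omega
      subst this
      simp

lemma idx_ge (h : FL E Fl a r) {i j x : ℕ} (hi : a (i - 1) < x) (hir : i - 1 ≤ r)
    (hj : x ≤ a j) : i ≤ j := by
  by_contra hcon
  have := h.a_le (i := j) (j := i - 1) (by omega) hir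
  omega

/-- consequences of all hyperplanes over a flat of corank three meeting `B` in `a (ρ+1)` points -/
lemma top_all (h : FL E Fl a (ρ + 3)) (hB : B ⊆ E) (hBk : B.card = a (ρ + 2))
    (hn : n * (a (ρ + 2) - a (ρ + 1)) = a (ρ + 3) - a (ρ + 2))
    {J : Finset α} (hJ : J ∈ Fl ρ) (hHc : ∀ H ∈ Fl (ρ + 2), J ⊆ H → (B ∩ H).card = a (ρ + 1)) :
    ∃ c, c ≤ a (ρ + 1) ∧ (∀ G ∈ Fl (ρ + 1), J ⊆ G → (B ∩ G).card = c) ∧
      n * (a (ρ + 1) - c) = a (ρ + 2) - a (ρ + 1) ∧
      (n : ℤ) * (c - (B ∩ J).card) = a (ρ + 1) - a ρ := by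
  have s0 : a ρ < a (ρ + 1) := h.a_succ (i := ρ) (by omega)
  have s1 : a (ρ + 1) < a (ρ + 2) := h.a_succ (i := ρ + 1) (by omega)
  have s2 : a (ρ + 2) < a (ρ + 3) := h.a_succ (i := ρ + 2) (by omega)
  have hnpos : 0 < n := by
    rcases Nat.eq_zero_or_pos n with h1 | h1
    · rw [h1, zero_mul] at hn; omega
    · exact h1
  obtain ⟨x, hx⟩ : ∃ x, x = (B ∩ J).card := ⟨_, rfl⟩
  have hxG : ∀ G : Finset α, J ⊆ G → x ≤ (B ∩ G).card := by
    intro G hJG
    rw [hx]; exact Finset.card_le_card (Finset.inter_subset_inter_left hJG)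
  obtain ⟨H0, hH0, hJH0⟩ := exists_above h hJ (ρ + 2) (by omega) (by omega)
  obtain ⟨G0, hG0, hJG0⟩ := exists_above h hJ (ρ + 1) (by omega) (by omega)
  obtain ⟨c, hcdef⟩ : ∃ c, c = (B ∩ G0).card := ⟨_, rfl⟩
  have hGle : ∀ G ∈ Fl (ρ + 1), (B ∩ G).card ≤ a (ρ + 1) := by
    intro G hG
    rw [← h.card (ρ + 1) G hG]; exact Finset.card_le_card Finset.inter_subset_right
  have hc : ∀ G ∈ Fl (ρ + 1), J ⊆ G →
      n * (a (ρ + 1) - (B ∩ G).card) = a (ρ + 2) - a (ρ + 1) := by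
    intro G hG hJG
    have h1 := top_eq h hB hBk hn hG (y := a (ρ + 1)) (fun H hH hGH => hHc H hH (hJG.trans hGH))
    have h2 := hGle G hG
    have e : (n + 1) * (a (ρ + 1) - (B ∩ G).card) =
        n * (a (ρ + 1) - (B ∩ G).card) + (a (ρ + 1) - (B ∩ G).card) := by ring
    omega
  have hc0 := hc G0 hG0 hJG0
  rw [← hcdef] at hc0
  have hcle : c ≤ a (ρ + 1) := by rw [hcdef]; exact hGle G0 hG0
  have hcc : ∀ G ∈ Fl (ρ + 1), J ⊆ G → (B ∩ G).card = c := by
    intro G hG hJG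
    have h5 := hc G hG hJG
    rw [← hc0] at h5
    have h6 := Nat.eq_of_mul_eq_mul_left hnpos h5
    have h7 := hGle G hG
    omega
  have hxc : x ≤ c := by rw [hcdef]; exact hxG G0 hJG0
  refine ⟨c, hcle, hcc, hc0, ?_⟩
  have m1 := all_eq h (B := B) (y := c) hJ hH0 hJH0 (fun D hD hJD _ => hcc D hD hJD)
  have m2 := h.btw hJ hH0 hJH0
  have m3 := all_eq h (B := B) (y := c) hJ h.top (h.sub _ J hJ)
    (fun D hD hJD _ => hcc D hD hJD)
  have m4 := h.btw hJ h.top (h.sub _ J hJ)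
  rw [hHc H0 hH0 hJH0, ← hx] at m1
  rw [Finset.inter_eq_left.2 hB, hBk, ← hx] at m3
  obtain ⟨N1, hN1⟩ : ∃ N1, N1 = ((Fl (ρ + 1)).filter (fun D => J ⊆ D ∧ D ⊆ H0)).card :=
    ⟨_, rfl⟩
  obtain ⟨N2, hN2⟩ : ∃ N2, N2 = ((Fl (ρ + 1)).filter (fun D => J ⊆ D ∧ D ⊆ E)).card :=
    ⟨_, rfl⟩
  rw [← hN1] at m1 m2
  rw [← hN2] at m3 m4
  have hn' := hn
  have m2' : N1 * (a (ρ + 1) - a ρ) = a (ρ + 2) - a ρ := m2
  rw [← hx]
  zify [hxc, (by omega : x ≤ a (ρ + 1))] at m1
  zify [s0.le, (by omega : a ρ ≤ a (ρ + 2))] at m2'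
  zify [hxc, (by omega : x ≤ a (ρ + 2))] at m3
  zify [s0.le, (by omega : a ρ ≤ a (ρ + 3))] at m4
  zify [s1.le, s2.le] at hn'
  have hkb : (a (ρ + 2) : ℤ) - a (ρ + 1) ≠ 0 := by omega
  apply mul_right_cancel₀ hkb
  linear_combination ((c : ℤ) - x) * hn' + ((a (ρ + 1) : ℤ) - a ρ) * m3 -
    ((c : ℤ) - x) * m4 - ((a (ρ + 1) : ℤ) - a ρ) * m1 + ((c : ℤ) - x) * m2'

/-- not all flats over `J` can be exceptional -/
lemma no_exc (h : FL E Fl a (ρ + 3)) (hB : B ⊆ E) (hBk : B.card = a (ρ + 2))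
    (hH : ∀ H ∈ Fl (ρ + 2), ∃ i ≤ ρ + 1, (B ∩ H).card = a i)
    (hn : n * (a (ρ + 2) - a (ρ + 1)) = a (ρ + 3) - a (ρ + 2))
    {J : Finset α} (hJ : J ∈ Fl ρ) (hx : (B ∩ J).card < a ρ)
    (hG : ∀ G ∈ Fl (ρ + 1), J ⊆ G → a ρ < (B ∩ G).card) : False := by
  have s0 : a ρ < a (ρ + 1) := h.a_succ (i := ρ) (by omega)
  have s1 : a (ρ + 1) < a (ρ + 2) := h.a_succ (i := ρ + 1) (by omega)
  have hHc : ∀ H ∈ Fl (ρ + 2), J ⊆ H → (B ∩ H).card = a (ρ + 1) := by
    intro H hHm hJH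
    obtain ⟨D, hD⟩ : ((Fl (ρ + 1)).filter (fun D => J ⊆ D ∧ D ⊆ H)).Nonempty := by
      rw [← Finset.card_pos]
      have := (num_part h hJ hHm hJH (by omega) (by omega)).1
      omega
    rw [mem_filter] at hD
    have h6 := hG D hD.1 hD.2.1
    have h7 : (B ∩ D).card ≤ (B ∩ H).card :=
      Finset.card_le_card (Finset.inter_subset_inter_left hD.2.2)
    obtain ⟨i', hi', e⟩ := hH H hHm
    have h8 : ρ < i' := by
      by_contra hcon
      have := h.a_le (i := i') (j := ρ) (by omega) (by omega)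
      omega
    have h9 : i' = ρ + 1 := by omega
    rw [e, h9]
  obtain ⟨c, hc1, hc2, hc3, hc4⟩ := top_all h hB hBk hn hJ hHc
  obtain ⟨G0, hG0, hJG0⟩ := exists_above h hJ (ρ + 1) (by omega) (by omega)
  have hca : a ρ < c := by rw [← hc2 G0 hG0 hJG0]; exact hG G0 hG0 hJG0
  obtain ⟨x, hxd⟩ : ∃ x, x = (B ∩ J).card := ⟨_, rfl⟩
  rw [← hxd] at hc4 hx
  obtain ⟨s, hs⟩ : (a (ρ + 1) - a ρ) ∣ a (ρ + 2) - a (ρ + 1) := by
    have h1 := step_dvd h (i := ρ) (j := ρ + 2) (by omega) (by omega)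
    have h2 := Nat.dvd_sub h1 (dvd_refl (a (ρ + 1) - a ρ))
    rwa [show a (ρ + 2) - a ρ - (a (ρ + 1) - a ρ) = a (ρ + 2) - a (ρ + 1) by omega] at h2
  have h1 : n * (a (ρ + 1) - c) = (a (ρ + 1) - a ρ) * s := by rw [hc3, hs]
  have hnpos : 0 < n := by
    rcases Nat.eq_zero_or_pos n with h2 | h2
    · rw [h2, zero_mul] at hc3; omega
    · exact h2
  have hns : s < n := by
    by_contra hcon
    have h2 : n * (a (ρ + 1) - c) < n * (a (ρ + 1) - a ρ) :=
      Nat.mul_lt_mul_of_pos_left (by omega) hnpos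
    have h3 : (a (ρ + 1) - a ρ) * n ≤ (a (ρ + 1) - a ρ) * s := Nat.mul_le_mul_left _ (by omega)
    have h4 : (a (ρ + 1) - a ρ) * n = n * (a (ρ + 1) - a ρ) := mul_comm _ _
    omega
  zify [hc1, s0.le] at h1
  have h2 : (n : ℤ) * (a (ρ + 1) - x) = (a (ρ + 1) - a ρ) * (s + 1) := by
    linear_combination hc4 + h1
  have h3 : ((s : ℤ) + 1) ≤ n := by omega
  have h4 : (a (ρ + 1) : ℤ) - a ρ > 0 := by omega
  have h5 : (a (ρ + 1) : ℤ) - x > a (ρ + 1) - a ρ := by omega
  have h6 : (n : ℤ) > 0 := by omega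
  have h7 : (n : ℤ) * (a (ρ + 1) - x) > n * (a (ρ + 1) - a ρ) := mul_lt_mul_of_pos_left h5 h6
  have h8 : (a (ρ + 1) - a ρ : ℤ) * (s + 1) ≤ (a (ρ + 1) - a ρ) * n :=
    mul_le_mul_of_nonneg_left h3 h4.le
  linarith [mul_comm (n : ℤ) (a (ρ + 1) - a ρ : ℤ)]

/-- the condition on the last quotient -/
def CondN (a : ℕ → ℕ) (ρ n : ℕ) : Prop :=
  ∀ i, 2 ≤ i → i ≤ ρ → ∀ d, 1 ≤ d → d < a i - a (i - 1) →
      (a (i + 1) - a i) ∣ n * d → a (ρ + 2) - a i < n * d

/-- the conditions on the other quotients -/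
def CondQ (a : ℕ → ℕ) (ρ n : ℕ) : Prop :=
  ∀ i m, 2 ≤ i → i < m → m ≤ ρ → (a (ρ + 2) - a (i + 1) < n * (a (i + 1) - a i)) ∨
    (∀ q, q * (a (m + 1) - a m) = a (m + 2) - a (m + 1) → ∀ d, 1 ≤ d → d < a i - a (i - 1) →
      (a (i + 1) - a i) ∣ q * d → a (min (m + 1) ρ) - a i < q * d)

/-- the sum over the intermediate flats, divisibility version -/
lemma mid_dvd (h : FL E Fl a r) {m i g q : ℕ} {K G : Finset α} (hm : m + 2 ≤ r)
    (hK : K ∈ Fl m) (hG : G ∈ Fl (m + 2)) (hKG : K ⊆ G)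
    (hx : (B ∩ K).card < a i)
    (hJ : ∀ D ∈ Fl (m + 1), K ⊆ D → D ⊆ G → ∃ j, i ≤ j ∧ j ≤ r ∧ (B ∩ D).card = a j)
    (hGc : (B ∩ G).card = a g) (hg : g ≤ r)
    (hq : q * (a (m + 1) - a m) = a (m + 2) - a (m + 1)) :
    (a (i + 1) - a i) ∣ q * (a i - (B ∩ K).card) ∧ q * (a i - (B ∩ K).card) ≤ a g - a i ∧
      i ≤ g := by
  have s0 := h.a_succ (i := m) (by omega)
  have s1 : a (m + 1) < a (m + 2) := h.a_succ (i := m + 1) (by omega)
  have hnum : ((Fl (m + 1)).filter (fun D => K ⊆ D ∧ D ⊆ G)).card = q + 1 := by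
    have h1 := h.btw hK hG hKG
    have h2 : (q + 1) * (a (m + 1) - a m) = a (m + 2) - a m := by
      have e : (q + 1) * (a (m + 1) - a m) = q * (a (m + 1) - a m) + (a (m + 1) - a m) := by ring
      rw [e, hq]; omega
    rw [← h2] at h1
    exact Nat.eq_of_mul_eq_mul_right (by omega) h1
  obtain ⟨D0, hD0⟩ : ((Fl (m + 1)).filter (fun D => K ⊆ D ∧ D ⊆ G)).Nonempty := by
    rw [← Finset.card_pos, hnum]; omega
  have hig : a i ≤ a g := by
    rw [mem_filter] at hD0
    obtain ⟨j, hj1, hj2, e⟩ := hJ D0 hD0.1 hD0.2.1 hD0.2.2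
    rw [← hGc]
    refine (h.a_le hj1 hj2).trans ?_
    rw [← e]
    exact Finset.card_le_card (Finset.inter_subset_inter_left hD0.2.2)
  have hig' : i ≤ g := by
    by_contra hcon
    have h1 : i ≤ r := by
      rw [mem_filter] at hD0
      obtain ⟨j, hj1, hj2, e⟩ := hJ D0 hD0.1 hD0.2.1 hD0.2.2
      omega
    have := h.a_lt (i := g) (j := i) (by omega) h1
    omega
  have hsum := sum_part h (B := B) hK hG hKG
  obtain ⟨x, hxd⟩ : ∃ x, x = (B ∩ K).card := ⟨_, rfl⟩
  rw [← hxd] at hsum hx ⊢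
  rw [hGc] at hsum
  have h5 : ∑ D ∈ (Fl (m + 1)).filter (fun D => K ⊆ D ∧ D ⊆ G), ((B ∩ D).card - x) =
      (q + 1) * (a i - x) +
        ∑ D ∈ (Fl (m + 1)).filter (fun D => K ⊆ D ∧ D ⊆ G), ((B ∩ D).card - a i) := by
    rw [← hnum, ← smul_eq_mul, ← Finset.sum_const, ← Finset.sum_add_distrib]
    apply Finset.sum_congr rfl
    intro D hD
    rw [mem_filter] at hD
    obtain ⟨j, hj1, hj2, e⟩ := hJ D hD.1 hD.2.1 hD.2.2
    have := h.a_le (i := i) (j := j) hj1 hj2
    omega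
  have hdv : (a (i + 1) - a i) ∣
      ∑ D ∈ (Fl (m + 1)).filter (fun D => K ⊆ D ∧ D ⊆ G), ((B ∩ D).card - a i) := by
    apply Finset.dvd_sum
    intro D hD
    rw [mem_filter] at hD
    obtain ⟨j, hj1, hj2, e⟩ := hJ D hD.1 hD.2.1 hD.2.2
    rw [e]
    exact step_dvd h hj1 hj2
  obtain ⟨S, hS⟩ : ∃ S, S =
    ∑ D ∈ (Fl (m + 1)).filter (fun D => K ⊆ D ∧ D ⊆ G), ((B ∩ D).card - a i) := ⟨_, rfl⟩
  rw [← hS] at h5 hdv
  rw [hsum] at h5
  have h7 : a g - a i = q * (a i - x) + S := by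
    have e : (q + 1) * (a i - x) = q * (a i - x) + (a i - x) := by ring
    omega
  refine ⟨?_, by omega, hig'⟩
  have h9 : (a (i + 1) - a i) ∣ a g - a i := step_dvd h hig' hg
  rw [h7] at h9
  exact (Nat.dvd_add_left hdv).1 h9

lemma num_mid (h : FL E Fl a r) {m q : ℕ} {K G : Finset α} (hm : m + 2 ≤ r)
    (hK : K ∈ Fl m) (hG : G ∈ Fl (m + 2)) (hKG : K ⊆ G)
    (hq : q * (a (m + 1) - a m) = a (m + 2) - a (m + 1)) :
    ((Fl (m + 1)).filter (fun D => K ⊆ D ∧ D ⊆ G)).card = q + 1 := by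
  have s0 := h.a_succ (i := m) (by omega)
  have s1 : a (m + 1) < a (m + 2) := h.a_succ (i := m + 1) (by omega)
  have h1 := h.btw hK hG hKG
  have h2 : (q + 1) * (a (m + 1) - a m) = a (m + 2) - a m := by
    have e : (q + 1) * (a (m + 1) - a m) = q * (a (m + 1) - a m) + (a (m + 1) - a m) := by ring
    rw [e, hq]; omega
  rw [← h2] at h1
  exact Nat.eq_of_mul_eq_mul_right (by omega) h1

lemma exists_q (h : FL E Fl a r) {m : ℕ} (hm : m + 2 ≤ r) :
    ∃ q, q * (a (m + 1) - a m) = a (m + 2) - a (m + 1) := by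
  have s0 := h.a_succ (i := m) (by omega)
  have s1 : a (m + 1) < a (m + 2) := h.a_succ (i := m + 1) (by omega)
  have h1 := step_dvd h (i := m) (j := m + 2) (by omega) (by omega)
  have h2 := Nat.dvd_sub h1 (dvd_refl (a (m + 1) - a m))
  rw [show a (m + 2) - a m - (a (m + 1) - a m) = a (m + 2) - a (m + 1) by omega] at h2
  obtain ⟨q, hq⟩ := h2
  exact ⟨q, by rw [hq, mul_comm]⟩

lemma two_le (h : FL E Fl a r) {i x : ℕ} (h1 : 1 ≤ i) (hi3 : a (i - 1) < x) (hi4 : x < a i) :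
    2 ≤ i := by
  by_contra hcon
  have : i = 1 := by omega
  subst this
  rw [h.one] at hi4
  have := h.a0
  simp only [Nat.sub_self] at hi3
  omega

lemma base' (h : FL E Fl a (ρ + 3)) (hB : B ⊆ E) (hBk : B.card = a (ρ + 2))
    (hH : ∀ H ∈ Fl (ρ + 2), ∃ i ≤ ρ + 1, (B ∩ H).card = a i)
    (hn : n * (a (ρ + 2) - a (ρ + 1)) = a (ρ + 3) - a (ρ + 2))
    (h3 : CondN a ρ n) (h5 : CondQ a ρ n)
    {J : Finset α} (hJ : J ∈ Fl ρ) : ∃ j, j < ρ ∧ (B ∩ J).card = a j := by
  have s0 : a ρ < a (ρ + 1) := h.a_succ (i := ρ) (by omega)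
  have s1 : a (ρ + 1) < a (ρ + 2) := h.a_succ (i := ρ + 1) (by omega)
  have s2 : a (ρ + 2) < a (ρ + 3) := h.a_succ (i := ρ + 2) (by omega)
  obtain ⟨x, hx⟩ : ∃ x, x = (B ∩ J).card := ⟨_, rfl⟩
  have hxle : x ≤ a ρ := by
    rw [hx, ← h.card ρ J hJ]; exact Finset.card_le_card Finset.inter_subset_right
  have hxne : x ≠ a ρ := by
    intro h1
    have h2 : B ∩ J = J := by
      apply Finset.eq_of_subset_of_card_le Finset.inter_subset_right
      rw [← hx, h1, h.card ρ J hJ]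
    exact h.main hB hBk hJ (Finset.inter_eq_right.1 h2) hH
  rw [← hx]
  rcases locate h.a0 x ρ hxle with ⟨j, hj, e⟩ | ⟨i, hi1, hi2, hi3, hi4⟩
  · refine ⟨j, ?_, e⟩
    rcases Nat.lt_or_ge j ρ with h1 | h1
    · exact h1
    · exfalso
      have : j = ρ := by omega
      subst this
      exact hxne e
  exfalso
  have hi : 2 ≤ i := two_le h hi1 hi3 hi4
  have hxG : ∀ G : Finset α, J ⊆ G → x ≤ (B ∩ G).card := by
    intro G hJG
    rw [hx]; exact Finset.card_le_card (Finset.inter_subset_inter_left hJG)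
  by_cases hall : ∀ H ∈ Fl (ρ + 2), J ⊆ H → (B ∩ H).card = a (ρ + 1)
  · obtain ⟨c, hc1, hc2, hc3, hc4⟩ := top_all h hB hBk hn hJ hall
    rw [← hx] at hc4
    obtain ⟨u1, hu1⟩ := step_dvd h (i := i) (j := ρ + 1) (by omega) (by omega)
    obtain ⟨u2, hu2⟩ := step_dvd h (i := i) (j := ρ + 2) (by omega) (by omega)
    obtain ⟨u3, hu3⟩ := step_dvd h (i := i) (j := ρ) (by omega) (by omega)
    have l0 := h.a_succ (i := i) (by omega)
    have l1 := h.a_le (i := i) (j := ρ) (by omega) (by omega)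
    have key : ((n * (a i - x) : ℕ) : ℤ) = ((a (i + 1) - a i : ℕ) : ℤ) * (u2 - u3 - n * u1) := by
      have e1 : ((a (ρ + 1) - a i : ℕ) : ℤ) = ((a (i + 1) - a i : ℕ) : ℤ) * u1 := by
        rw [hu1]; push_cast; ring
      have e2 : ((a (ρ + 2) - a i : ℕ) : ℤ) = ((a (i + 1) - a i : ℕ) : ℤ) * u2 := by
        rw [hu2]; push_cast; ring
      have e3 : ((a ρ - a i : ℕ) : ℤ) = ((a (i + 1) - a i : ℕ) : ℤ) * u3 := by
        rw [hu3]; push_cast; ring
      rw [Nat.cast_sub (by omega)] at e1 e2 e3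
      rw [Nat.cast_mul, Nat.cast_sub hi4.le]
      zify [hc1, s1.le] at hc3
      linear_combination hc4 + hc3 - (n : ℤ) * e1 + e2 - e3
    have hdv : (a (i + 1) - a i) ∣ n * (a i - x) := by
      have : ((a (i + 1) - a i : ℕ) : ℤ) ∣ ((n * (a i - x) : ℕ) : ℤ) := ⟨_, key⟩
      exact_mod_cast this
    have hle : n * (a i - x) ≤ a (ρ + 2) - a i := by
      zify [hc1, s1.le] at hc3
      zify [hi4.le, (by omega : a i ≤ a (ρ + 2))]
      have e1 : (n : ℤ) * (a (ρ + 1) - x) = a (ρ + 2) - a ρ := by linear_combination hc4 + hc3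
      have e2 : (n : ℤ) * (a i - x) ≤ n * (a (ρ + 1) - x) := by
        apply mul_le_mul_of_nonneg_left <;> omega
      have e3 : (a i : ℤ) ≤ a ρ := by exact_mod_cast l1
      linarith
    have := h3 i hi (by omega) (a i - x) (by omega) (by omega) hdv
    omega
  · push Not at hall
    obtain ⟨H0, hH0, hJH0, hH0c⟩ := hall
    obtain ⟨g, hg, hgc⟩ := hH H0 hH0
    have hgρ : g ≤ ρ := by
      rcases Nat.lt_or_ge ρ g with h1 | h1
      · exfalso
        have : g = ρ + 1 := by omega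
        rw [this] at hgc
        exact hH0c hgc
      · exact h1
    have hmid : ∀ D ∈ Fl (ρ + 1), J ⊆ D → D ⊆ H0 →
        ∃ j, i ≤ j ∧ j ≤ ρ + 3 ∧ (B ∩ D).card = a j := by
      intro D hD hJD hDH
      have h7 : (B ∩ D).card ≤ (B ∩ H0).card :=
        Finset.card_le_card (Finset.inter_subset_inter_left hDH)
      rcases level h hB hBk hH hn h3 hD with ⟨j, hj, e⟩ | ⟨h8, -⟩
      · exact ⟨j, idx_ge h hi3 (by omega) (by rw [← e]; exact hxG D hJD), by omega, e⟩
      · exfalso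
        have := h.a_le hgρ (by omega)
        omega
    obtain ⟨q, hq⟩ := exists_q h (m := ρ) (by omega)
    obtain ⟨k1, k2, k3⟩ := mid_dvd h (B := B) (by omega) hJ hH0 hJH0
      (by rw [← hx]; exact hi4) hmid hgc (by omega) hq
    rw [← hx] at k1 k2
    have hgi : g ≠ i := by
      intro h1
      apply no_same h (B := B) (x := a i) (by omega) hJ hH0 hJH0 (by rw [← hx]; exact hi4) _
        (by rw [hgc, h1])
      intro D hD hJD hDH
      obtain ⟨j, hj1, hj2, e⟩ := hmid D hD hJD hDH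
      rw [e]; exact h.a_le hj1 hj2
    have hiρ : i < ρ := by omega
    rcases h5 i ρ hi hiρ le_rfl with h6 | h6
    · classical
      have hex : ∃ j, ∃ G ∈ Fl (ρ + 1), J ⊆ G ∧ j ≤ ρ ∧ (B ∩ G).card = a j := by
        obtain ⟨D, hD⟩ : ((Fl (ρ + 1)).filter (fun D => J ⊆ D ∧ D ⊆ H0)).Nonempty := by
          rw [← Finset.card_pos]
          have := (num_part h hJ hH0 hJH0 (by omega) (by omega)).1
          omega
        rw [mem_filter] at hD
        obtain ⟨j, hj1, hj2, e⟩ := hmid D hD.1 hD.2.1 hD.2.2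
        refine ⟨j, D, hD.1, hD.2.1, ?_, e⟩
        by_contra hcon
        have h7 : (B ∩ D).card ≤ (B ∩ H0).card :=
          Finset.card_le_card (Finset.inter_subset_inter_left hD.2.2)
        rw [hgc, e] at h7
        have := h.a_lt (i := g) (j := j) (by omega) hj2
        omega
      obtain ⟨j0, ⟨G0, hG0, hJG0, hj0, hG0c⟩, hmin⟩ : ∃ j0,
          (∃ G ∈ Fl (ρ + 1), J ⊆ G ∧ j0 ≤ ρ ∧ (B ∩ G).card = a j0) ∧
          ∀ j, (∃ G ∈ Fl (ρ + 1), J ⊆ G ∧ j ≤ ρ ∧ (B ∩ G).card = a j) → j0 ≤ j :=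
        ⟨Nat.find hex, Nat.find_spec hex, fun j hj => Nat.find_min' hex hj⟩
      have hij : i ≤ j0 := idx_ge h hi3 (by omega) (by rw [← hG0c]; exact hxG G0 hJG0)
      have hallD : ∀ D ∈ Fl (ρ + 1), J ⊆ D → a j0 ≤ (B ∩ D).card := by
        intro D hD hJD
        rcases level h hB hBk hH hn h3 hD with ⟨j, hj, e⟩ | ⟨h5, -⟩
        · rw [e]; exact h.a_le (hmin j ⟨D, hD, hJD, hj, e⟩) (by omega)
        · exact (h.a_le (i := j0) (j := ρ) hj0 (by omega)).trans h5.le
      have hxlt : (B ∩ J).card < a j0 := by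
        rw [← hx]
        exact hi4.trans_le (h.a_le hij (by omega))
      refine step h hB hBk hn h6 (m := ρ) le_rfl hJ hxlt hij hj0 hallD hG0 hJG0 hG0c ?_
      intro G hG _ h5
      obtain ⟨i', hi', e⟩ := hH G hG
      rw [e] at h5 ⊢
      have : j0 < i' := by
        by_contra hcon
        have := h.a_le (i := i') (j := j0) (by omega) (by omega)
        omega
      exact h.a_le (by omega) (by omega)
    · have h7 := h6 q hq (a i - x) (by omega) (by omega) k1
      rw [show min (ρ + 1) ρ = ρ by omega] at h7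
      have := h.a_le hgρ (by omega)
      omega

lemma descend' (h : FL E Fl a (ρ + 3)) (hB : B ⊆ E) (hBk : B.card = a (ρ + 2))
    (hH : ∀ H ∈ Fl (ρ + 2), ∃ i ≤ ρ + 1, (B ∩ H).card = a i)
    (hn : n * (a (ρ + 2) - a (ρ + 1)) = a (ρ + 3) - a (ρ + 2))
    (h3 : CondN a ρ n) (h5 : CondQ a ρ n) :
    ∀ t, t < ρ → ∀ m, m + t = ρ → ∀ K ∈ Fl m, ∃ j, j < m ∧ (B ∩ K).card = a j := by
  intro t
  induction t using Nat.strong_induction_on with
  | _ t ih =>
    intro ht m hm K hK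
    rcases Nat.eq_zero_or_pos t with h0 | h0
    · subst h0
      have : m = ρ := by omega
      subst this
      exact base' h hB hBk hH hn h3 h5 hK
    have hC1 : ∀ J ∈ Fl (m + 1), ∃ j, j < m + 1 ∧ (B ∩ J).card = a j := by
      intro J hJ
      exact ih (t - 1) (by omega) (by omega) (m + 1) (by omega) J hJ
    obtain ⟨x, hx⟩ : ∃ x, x = (B ∩ K).card := ⟨_, rfl⟩
    have hxle : x ≤ a m := by
      rw [hx, ← h.card m K hK]; exact Finset.card_le_card Finset.inter_subset_right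
    have hxne : x ≠ a m := by
      intro h1
      have h2 : B ∩ K = K := by
        apply Finset.eq_of_subset_of_card_le Finset.inter_subset_right
        rw [← hx, h1, h.card m K hK]
      have hKB : K ⊆ B := Finset.inter_eq_right.1 h2
      obtain ⟨y, hyB, hyK⟩ : ∃ y ∈ B, y ∉ K := by
        apply Finset.exists_mem_notMem_of_card_lt_card
        rw [h.card m K hK, hBk]
        exact h.a_lt (by omega) (by omega)
      obtain ⟨J, hJ, hKJ, hyJ, -⟩ := h.span m K hK y (hB hyB) hyK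
      obtain ⟨j, hj, e⟩ := hC1 J hJ
      have h5 : insert y K ⊆ B ∩ J := by
        intro z hz
        rw [Finset.mem_insert] at hz
        rcases hz with rfl | hz
        · exact mem_inter.2 ⟨hyB, hyJ⟩
        · exact mem_inter.2 ⟨hKB hz, hKJ hz⟩
      have h6 := Finset.card_le_card h5
      rw [Finset.card_insert_of_notMem hyK, h.card m K hK, e] at h6
      have h7 := h.a_le (i := j) (j := m) (by omega) (by omega)
      omega
    rw [← hx]
    rcases locate h.a0 x m hxle with ⟨j, hj, e⟩ | ⟨i, hi1, hi2, hi3, hi4⟩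
    · refine ⟨j, ?_, e⟩
      rcases Nat.lt_or_ge j m with h1 | h1
      · exact h1
      · exfalso
        have : j = m := by omega
        subst this
        exact hxne e
    exfalso
    have hi : 2 ≤ i := two_le h hi1 hi3 hi4
    have hxG : ∀ G : Finset α, K ⊆ G → x ≤ (B ∩ G).card := by
      intro G hKG
      rw [hx]; exact Finset.card_le_card (Finset.inter_subset_inter_left hKG)
    -- values on the flats two ranks up
    have hval : ∀ G ∈ Fl (m + 2), (∃ j, j ≤ m + 1 ∧ j ≤ ρ ∧ (B ∩ G).card = a j) ∨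
        (m + 1 = ρ ∧ a ρ < (B ∩ G).card) := by
      intro G hG
      rcases (by omega : m + 2 = ρ + 1 ∨ m + 2 ≤ ρ) with h6 | h6
      · have hG' := hG
        rw [h6] at hG'
        rcases level h hB hBk hH hn h3 hG' with ⟨j, hj, e⟩ | h7
        · left; exact ⟨j, by omega, hj, e⟩
        · right; exact ⟨by omega, h7.1⟩
      · obtain ⟨j, hj, e⟩ := ih (t - 2) (by omega) (by omega) (m + 2) (by omega) G hG
        left; exact ⟨j, by omega, by omega, e⟩
    have hJval : ∀ D ∈ Fl (m + 1), K ⊆ D → ∃ j, i ≤ j ∧ j ≤ m ∧ (B ∩ D).card = a j := by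
      intro D hD hKD
      obtain ⟨j, hj, e⟩ := hC1 D hD
      exact ⟨j, idx_ge h hi3 (by omega) (by rw [← e]; exact hxG D hKD), by omega, e⟩
    have hT : ∃ G ∈ Fl (m + 2), K ⊆ G ∧ ∃ g, g ≤ m + 1 ∧ g ≤ ρ ∧ (B ∩ G).card = a g := by
      by_contra hcon
      push Not at hcon
      have h6 : ∀ G ∈ Fl (m + 2), K ⊆ G → m + 1 = ρ ∧ a ρ < (B ∩ G).card := by
        intro G hG hKG
        rcases hval G hG with ⟨j, hj1, hj2, e⟩ | h7
        · exact absurd e (hcon G hG hKG j hj1 hj2)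
        · exact h7
      obtain ⟨J, hJ, hKJ⟩ := exists_above h hK (m + 1) (by omega) (by omega)
      obtain ⟨G1, hG1, hKG1⟩ := exists_above h hK (m + 2) (by omega) (by omega)
      have h7 := (h6 G1 hG1 hKG1).1
      obtain ⟨j, hj, e⟩ := hC1 J hJ
      have hJ' : J ∈ Fl ρ := by rw [← h7]; exact hJ
      refine no_exc h hB hBk hH hn hJ' ?_ ?_
      · rw [e]; exact h.a_lt (by omega) (by omega)
      · intro G hG hJG
        exact (h6 G (by rw [show m + 2 = ρ + 1 by omega]; exact hG) (hKJ.trans hJG)).2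
    obtain ⟨G, hG, hKG, g, hg1, hg2, hGc⟩ := hT
    obtain ⟨q, hq⟩ := exists_q h (m := m) (by omega)
    rcases Nat.lt_or_ge i m with him | him
    · rcases h5 i m hi him (by omega) with h6 | h6
      · classical
        have hex : ∃ j, ∃ G ∈ Fl (m + 1), K ⊆ G ∧ (B ∩ G).card = a j := by
          obtain ⟨J, hJ, hKJ⟩ := exists_above h hK (m + 1) (by omega) (by omega)
          obtain ⟨j, -, e⟩ := hC1 J hJ
          exact ⟨j, J, hJ, hKJ, e⟩
        obtain ⟨j0, ⟨G0, hG0, hKG0, hG0c⟩, hmin⟩ : ∃ j0,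
            (∃ G ∈ Fl (m + 1), K ⊆ G ∧ (B ∩ G).card = a j0) ∧
            ∀ j, (∃ G ∈ Fl (m + 1), K ⊆ G ∧ (B ∩ G).card = a j) → j0 ≤ j :=
          ⟨Nat.find hex, Nat.find_spec hex, fun j hj => Nat.find_min' hex hj⟩
        have hj0m : j0 ≤ m := by
          obtain ⟨j, hj, e⟩ := hC1 G0 hG0
          exact (hmin j ⟨G0, hG0, hKG0, e⟩).trans (by omega)
        have hij : i ≤ j0 := idx_ge h hi3 (by omega) (by rw [← hG0c]; exact hxG G0 hKG0)
        have hallD : ∀ D ∈ Fl (m + 1), K ⊆ D → a j0 ≤ (B ∩ D).card := by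
          intro D hD hKD
          obtain ⟨j, hj, e⟩ := hC1 D hD
          rw [e]; exact h.a_le (hmin j ⟨D, hD, hKD, e⟩) (by omega)
        have hxlt : (B ∩ K).card < a j0 := by
          rw [← hx]
          exact hi4.trans_le (h.a_le hij (by omega))
        refine step h hB hBk hn h6 (m := m) (by omega) hK hxlt hij (by omega) hallD hG0 hKG0
          hG0c ?_
        intro G hG _ h7
        rcases hval G hG with ⟨j, hj1, hj2, e⟩ | ⟨h8, h9⟩
        · rw [e] at h7 ⊢
          have : j0 < j := by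
            by_contra hcon
            have := h.a_le (i := j) (j := j0) (by omega) (by omega)
            omega
          exact h.a_le (by omega) (by omega)
        · exact (h.a_le (i := j0 + 1) (j := ρ) (by omega) (by omega)).trans h9.le
      · obtain ⟨k1, k2, k3⟩ := mid_dvd h (B := B) (by omega) hK hG hKG
          (by rw [← hx]; exact hi4)
          (fun D hD hKD _ => by
            obtain ⟨j, hj1, hj2, e⟩ := hJval D hD hKD
            exact ⟨j, hj1, by omega, e⟩) hGc (by omega) hq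
        rw [← hx] at k1 k2
        have h7 := h6 q hq (a i - x) (by omega) (by omega) k1
        have := h.a_le (i := g) (j := min (m + 1) ρ) (by omega) (by omega)
        omega
    · have him' : i = m := by omega
      subst him'
      have hJc : ∀ D ∈ Fl (i + 1), K ⊆ D → (B ∩ D).card = a i := by
        intro D hD hKD
        obtain ⟨j, hj1, hj2, e⟩ := hJval D hD hKD
        rw [e, show j = i by omega]
      have l0 := h.a_succ (i := i) (by omega)
      have l1 : a (i + 1) < a (i + 2) := h.a_succ (i := i + 1) (by omega)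
      have t1 := all_eq h (B := B) (y := a i) hK hG hKG (fun D hD hKD _ => hJc D hD hKD)
      rw [num_mid h (by omega) hK hG hKG hq, ← hx, hGc] at t1
      have hqpos : 0 < q := by
        rcases Nat.eq_zero_or_pos q with h6 | h6
        · rw [h6, zero_mul] at hq; omega
        · exact h6
      have t2 : (q + 1) * (a i - x) = q * (a i - x) + (a i - x) := by ring
      have t3 : 0 < q * (a i - x) := Nat.mul_pos hqpos (by omega)
      have hgi : g = i + 1 := by
        rcases Nat.lt_or_ge g (i + 1) with h6 | h6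
        · exfalso
          have := h.a_le (i := g) (j := i) (by omega) (by omega)
          omega
        · omega
      rw [hgi] at t1
      have t4 : q * (a i - x) = a (i + 1) - a i := by omega
      have t5 := all_eq h (B := B) (y := a i) hK h.top (h.sub _ K hK)
        (fun D hD hKD _ => hJc D hD hKD)
      have t6 := h.btw hK h.top (h.sub _ K hK)
      rw [Finset.inter_eq_left.2 hB, hBk, ← hx] at t5
      obtain ⟨N, hN⟩ : ∃ N, N = ((Fl (i + 1)).filter (fun D => K ⊆ D ∧ D ⊆ E)).card := ⟨_, rfl⟩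
      rw [← hN] at t5 t6
      have c1 := convSum h (m := i) (ρ + 1) (by omega) (by omega)
      have c2 := conv h (m := i) (ρ + 1) (by omega) (by omega)
      have l2 := h.a_le (i := i + 1) (j := ρ + 1) (by omega) (by omega)
      have l3 : a (ρ + 1) < a (ρ + 2) := h.a_succ (i := ρ + 1) (by omega)
      have l4 : a (ρ + 2) < a (ρ + 3) := h.a_succ (i := ρ + 2) (by omega)
      have c1' : (a (i + 2) - a (i + 1)) * (a (ρ + 1) - a i) ≤
        (a (i + 1) - a i) * (a (ρ + 2) - a (i + 1)) := c1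
      have c2' : (a (i + 2) - a (i + 1)) * (a (ρ + 2) - a (ρ + 1)) ≤
        (a (i + 1) - a i) * (a (ρ + 3) - a (ρ + 2)) := c2
      have hn' := hn
      have hq' := hq
      have t4' := t4
      zify [hi4.le, (by omega : x ≤ a (ρ + 2))] at t5
      zify [l0.le, (by omega : a i ≤ a (ρ + 3))] at t6
      zify [hi4.le, l0.le] at t4'
      zify [l0.le, l1.le] at hq'
      zify [l3.le, l4.le] at hn'
      zify [l1.le, (by omega : a i ≤ a (ρ + 1)), l0.le, (by omega : a (i + 1) ≤ a (ρ + 2))] at c1'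
      zify [l1.le, l3.le, l0.le, l4.le] at c2'
      have hδ : (a i : ℤ) - x ≠ 0 := by omega
      have hdd : (a (i + 1) : ℤ) - a i ≠ 0 := by omega
      have hkb : (a (ρ + 2) : ℤ) - a (ρ + 1) ≠ 0 := by omega
      have e1 : ((a (i + 1) : ℤ) - a i) * (a (ρ + 3) - a (i + 1)) =
          (a (i + 2) - a (i + 1)) * (a (ρ + 2) - a i) := by
        apply mul_right_cancel₀ hδ
        have f1 : ((a (ρ + 3) : ℤ) - a (i + 1)) * (a i - x) =
            (a (i + 1) - a i) * (a (ρ + 2) - a i) := by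
          linear_combination ((a (i + 1) : ℤ) - a i) * t5 - ((a i : ℤ) - x) * t6
        linear_combination ((a (i + 1) : ℤ) - a i) * f1 - ((a (ρ + 2) : ℤ) - a i) *
          ((a (i + 1) : ℤ) - a i) * t4' + ((a (ρ + 2) : ℤ) - a i) * ((a i : ℤ) - x) * hq'
      have e2 : ((a (i + 2) : ℤ) - a (i + 1)) * (a (ρ + 2) - a (ρ + 1)) =
          (a (i + 1) - a i) * (a (ρ + 3) - a (ρ + 2)) := by
        have f1 : ((a (i + 1) : ℤ) - a i) * (a (ρ + 3) - a (i + 1)) =
            (a (i + 1) - a i) * (a (ρ + 3) - a (ρ + 2)) +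
              (a (i + 1) - a i) * (a (ρ + 2) - a (i + 1)) := by ring
        have f2 : ((a (i + 2) : ℤ) - a (i + 1)) * (a (ρ + 2) - a i) =
            (a (i + 2) - a (i + 1)) * (a (ρ + 2) - a (ρ + 1)) +
              (a (i + 2) - a (i + 1)) * (a (ρ + 1) - a i) := by ring
        apply le_antisymm c2'
        linarith
      have e3 : (q : ℤ) = n := by
        rw [← hq', ← hn'] at e2
        have f1 : ((a (i + 1) : ℤ) - a i) * (a (ρ + 2) - a (ρ + 1)) * (q - n) = 0 := by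
          linear_combination e2
        rcases mul_eq_zero.1 f1 with f2 | f2
        · rcases mul_eq_zero.1 f2 with f3 | f3
          · exact absurd f3 hdd
          · exact absurd f3 hkb
        · omega
      have e4 : q = n := by exact_mod_cast e3
      rw [e4] at t4
      have := h3 i hi (by omega) (a i - x) (by omega) (by omega) (by rw [t4])
      omega

/-- the main combinatorial statement in rank at least five -/
theorem main5 (h : FL E Fl a (ρ + 3)) (hρ : 2 ≤ ρ) (hB : B ⊆ E) (hBk : B.card = a (ρ + 2))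
    (hH : ∀ H ∈ Fl (ρ + 2), ∃ i ≤ ρ + 1, (B ∩ H).card = a i)
    (hn : n * (a (ρ + 2) - a (ρ + 1)) = a (ρ + 3) - a (ρ + 2))
    (h3 : CondN a ρ n) (h5 : CondQ a ρ n) : False := by
  have hpos : 0 < B.card := by
    rw [hBk]
    have := h.a_lt (i := 0) (j := ρ + 2) (by omega) (by omega)
    omega
  obtain ⟨y, hy⟩ := Finset.card_pos.1 hpos
  obtain ⟨D, hD, -, hyD, -⟩ := h.span 0 ∅ h.bot y (hB hy) (by simp)
  obtain ⟨j, hj, e⟩ := descend' h hB hBk hH hn h3 h5 (ρ - 1) (by omega) 1 (by omega) D hD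
  have hj0 : j = 0 := by omega
  rw [hj0, h.a0, Finset.card_eq_zero] at e
  have : y ∈ B ∩ D := mem_inter.2 ⟨hy, hyD⟩
  rw [e] at this
  simp at this

/-- the refined statement in rank five -/
theorem rank5 (h : FL E Fl a (2 + 3)) (hB : B ⊆ E) (hBk : B.card = a 4)
    (hH : ∀ H ∈ Fl 4, ∃ i ≤ 3, (B ∩ H).card = a i)
    (hn : n * (a 4 - a 3) = a 5 - a 4) :
    ∃ d, 1 ≤ d ∧ d + 1 < a 2 ∧ (a 3 - a 2) ∣ n * d ∧ n * d ≤ a 4 - a 2 ∧
      (a 4 - a 2) ∣ n * (n + 1) * d := by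
  have o1 := h.one
  have l1 : a 1 < a 2 := h.a_succ (i := 1) (by omega)
  have l2 : a 2 < a 3 := h.a_succ (i := 2) (by omega)
  have l3 : a 3 < a 4 := h.a_succ (i := 3) (by omega)
  have l4 : a 4 < a 5 := h.a_succ (i := 4) (by omega)
  obtain ⟨y1, hy1⟩ : ∃ y1, y1 ∈ B := Finset.card_pos.1 (by omega)
  obtain ⟨P, hP, -, hy1P, -⟩ := h.span 0 ∅ h.bot y1 (hB hy1) (by simp)
  obtain ⟨y2, hy2, hy2P⟩ : ∃ e ∈ B, e ∉ P := by
    apply Finset.exists_mem_notMem_of_card_lt_card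
    rw [h.card 1 P hP, hBk]; omega
  obtain ⟨L, hL, hPL, hy2L, -⟩ := h.span 1 P hP y2 (hB hy2) hy2P
  obtain ⟨x, hx⟩ : ∃ x, x = (B ∩ L).card := ⟨_, rfl⟩
  have hx2 : 2 ≤ x := by
    rw [hx]
    have h1 : ({y1, y2} : Finset α) ⊆ B ∩ L := by
      intro z hz
      rw [Finset.mem_insert, Finset.mem_singleton] at hz
      rcases hz with rfl | rfl
      · exact mem_inter.2 ⟨hy1, hPL hy1P⟩
      · exact mem_inter.2 ⟨hy2, hy2L⟩
    have h2 := Finset.card_le_card h1
    rwa [Finset.card_pair (a := y1) (b := y2) (fun h3 => hy2P (by rw [← h3]; exact hy1P))] at h2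
  have hxle : x ≤ a 2 := by
    rw [hx, ← h.card 2 L hL]; exact Finset.card_le_card Finset.inter_subset_right
  have hxne : x ≠ a 2 := by
    intro h1
    have h2 : B ∩ L = L := by
      apply Finset.eq_of_subset_of_card_le Finset.inter_subset_right
      rw [← hx, h1, h.card 2 L hL]
    exact h.main (ρ := 2) hB hBk hL (Finset.inter_eq_right.1 h2) hH
  have hxG : ∀ G : Finset α, L ⊆ G → x ≤ (B ∩ G).card := by
    intro G hLG
    rw [hx]; exact Finset.card_le_card (Finset.inter_subset_inter_left hLG)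
  have hHval : ∀ H ∈ Fl 4, L ⊆ H → (B ∩ H).card = a 2 ∨ (B ∩ H).card = a 3 := by
    intro H hHm hLH
    obtain ⟨g, hg, e⟩ := hH H hHm
    have h1 : 2 ≤ g := idx_ge h (i := 2) (x := x) (by
      show a 1 < x
      omega) (by omega) (by rw [← e]; exact hxG H hLH)
    rcases (by omega : g = 2 ∨ g = 3) with h2 | h2
    · left; rw [e, h2]
    · right; rw [e, h2]
  -- integrality of the number of hyperplanes over `L`
  have hN3 : ∀ D ∈ Fl (2 + 1), ((Fl 4).filter (fun H => D ⊆ H)).card = n + 1 := by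
    intro D hD
    rw [← num_top h (ρ := 2) (n := n) hn hD]
    congr 1
    ext H
    simp only [mem_filter]
    constructor
    · rintro ⟨k1, k2⟩; exact ⟨k1, k2, h.sub _ H k1⟩
    · rintro ⟨k1, k2, -⟩; exact ⟨k1, k2⟩
  obtain ⟨NH, hNH⟩ : ∃ NH, NH = ((Fl 4).filter (fun H => L ⊆ H)).card := ⟨_, rfl⟩
  have r1 := h.N_step hL hN3
  rw [← hNH] at r1
  obtain ⟨s, hs⟩ := exists_q h (m := 2) (by omega)
  have hs' : s * (a 3 - a 2) = a 4 - a 3 := hs
  have r1' : NH * (a 4 - a 2) = (a 5 - a 2) * (n + 1) := r1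
  have z1 : (s : ℤ) * (a 3 - a 2) = a 4 - a 3 := by
    have := hs'
    zify [l2.le, l3.le] at this
    exact this
  have z2 : (n : ℤ) * (a 4 - a 3) = a 5 - a 4 := by
    have := hn
    zify [l3.le, l4.le] at this
    exact this
  have z3 : (NH : ℤ) * (a 4 - a 2) = (a 5 - a 2) * (n + 1) := by
    have := r1'
    zify [(by omega : a 2 ≤ a 4), (by omega : a 2 ≤ a 5)] at this
    exact this
  have hD0 : (a 3 : ℤ) - a 2 ≠ 0 := by omega
  have z4 : (NH : ℤ) * (1 + s) = (n + 1) * (1 + s + n * s) := by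
    apply mul_right_cancel₀ hD0
    linear_combination z3 + ((NH : ℤ) - (n + 1) - n * (n + 1)) * z1 - ((n : ℤ) + 1) * z2
  refine ⟨a 2 - x, by omega, by omega, ?_⟩
  have cast1 : ((a 4 - a 2 : ℕ) : ℤ) = (a 4 : ℤ) - a 2 := by
    rw [Nat.cast_sub (by omega)]
  have cast2 : ((a 3 - a 2 : ℕ) : ℤ) = (a 3 : ℤ) - a 2 := by
    rw [Nat.cast_sub (by omega)]
  have cast3 : ((a 2 - x : ℕ) : ℤ) = (a 2 : ℤ) - x := by
    rw [Nat.cast_sub (by omega)]
  by_cases hall : ∀ H ∈ Fl 4, L ⊆ H → (B ∩ H).card = a 3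
  · obtain ⟨c, hc1, hc2, hc3, hc4⟩ := top_all h (ρ := 2) hB hBk hn hL hall
    rw [← hx] at hc4
    have w1 : (n : ℤ) * (a 3 - c) = a 4 - a 3 := by
      have := hc3
      zify [hc1, l3.le] at this
      exact this
    have w2 : (n : ℤ) * (c - x) = a 3 - a 2 := hc4
    have w3 : (n : ℤ) * (a 2 - x) = (a 3 - a 2) * (1 + s - n) := by
      linear_combination w1 + w2 - z1
    refine ⟨?_, ?_, ?_⟩
    · have : ((a 3 - a 2 : ℕ) : ℤ) ∣ ((n * (a 2 - x) : ℕ) : ℤ) := by
        rw [cast2, Nat.cast_mul, cast3, w3]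
        exact Dvd.intro _ rfl
      exact_mod_cast this
    · have : ((n * (a 2 - x) : ℕ) : ℤ) ≤ ((a 4 - a 2 : ℕ) : ℤ) := by
        rw [Nat.cast_mul, cast3, cast1, w3]
        have e : (a 4 : ℤ) - a 2 = (a 3 - a 2) * (1 + s) := by linear_combination -z1
        rw [e]
        apply mul_le_mul_of_nonneg_left <;> omega
      exact_mod_cast this
    · have : ((a 4 - a 2 : ℕ) : ℤ) ∣ ((n * (n + 1) * (a 2 - x) : ℕ) : ℤ) := by
        rw [cast1, Nat.cast_mul, cast3]
        push_cast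
        refine ⟨(n + 1) + ((NH : ℤ) - (n + 1) * (n + 1)), ?_⟩
        linear_combination ((n : ℤ) + 1) * w3 - z3 + (n + 1) * z2 + ((n : ℤ) + 1) * z1
      exact_mod_cast this
  · push Not at hall
    obtain ⟨H0, hH0, hLH0, hH0c⟩ := hall
    have hH0a : (B ∩ H0).card = a 2 := by
      rcases hHval H0 hH0 hLH0 with h1 | h1
      · exact h1
      · exact absurd h1 hH0c
    -- pigeonhole
    obtain ⟨G, hG, hLG, hGc⟩ : ∃ G ∈ Fl 3, L ⊆ G ∧ (B ∩ G).card = x := by
      by_contra hcon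
      push Not at hcon
      have p1 := sum_part h (B := B) hL hH0 hLH0
      rw [hH0a, ← hx] at p1
      have p2 : ((Fl (2 + 1)).filter (fun D => L ⊆ D ∧ D ⊆ H0)).card * 1 ≤ a 2 - x := by
        rw [← p1, ← smul_eq_mul]
        apply Finset.card_nsmul_le_sum
        intro D hD
        rw [mem_filter] at hD
        have q1 := hcon D hD.1 hD.2.1
        have q2 := hxG D hD.2.1
        omega
      rw [num_mid h (m := 2) (by omega) hL hH0 hLH0 hs] at p2
      have p3 := conv h (m := 0) 2 (by omega) (by omega)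
      have p4 : (a 2 - a 1) * (a 3 - a 2) ≤ (a 1 - a 0) * (a 4 - a 3) := p3
      rw [h.a0, o1, ← hs'] at p4
      have p5 : (a 2 - 1) * (a 3 - a 2) ≤ s * (a 3 - a 2) := by simpa using p4
      have p6 : a 2 - 1 ≤ s := Nat.le_of_mul_le_mul_right p5 (by omega)
      omega
    obtain ⟨k1, k2, -⟩ := mid_dvd h (B := B) (m := 2 + 1) (i := 2) (g := 4) (q := n)
      (K := G) (G := E) (by omega) hG h.top (h.sub _ G hG) (by rw [hGc]; omega)
      (by
        intro D hD hGD _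
        rcases hHval D hD (hLG.trans hGD) with e | e
        · exact ⟨2, le_rfl, by omega, e⟩
        · exact ⟨3, by omega, by omega, e⟩)
      (by rw [Finset.inter_eq_left.2 hB, hBk]) (by omega) hn
    rw [hGc] at k1 k2
    refine ⟨k1, k2, ?_⟩
    obtain ⟨i, hi⟩ := k1
    have z5 : (n : ℤ) * (a 2 - x) = (a 3 - a 2) * i := by
      have : ((n * (a 2 - x) : ℕ) : ℤ) = (((a 3 - a 2) * i : ℕ) : ℤ) := by
        rw [← hi]
      rw [Nat.cast_mul, Nat.cast_mul, cast3, cast2] at this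
      exact this
    -- count over the hyperplanes through `L`
    have u1 := h.hyp hL hN3 hB
    have u2 : ∑ H ∈ (Fl 4).filter (fun H => L ⊆ H), (B ∩ (H \ L)).card =
        NH * (a 2 - x) +
          (((Fl 4).filter (fun H => L ⊆ H)).filter (fun H => (B ∩ H).card = a 3)).card *
            (a 3 - a 2) := by
      rw [Finset.card_filter, Finset.sum_mul, hNH, ← smul_eq_mul, ← Finset.sum_const,
        ← Finset.sum_add_distrib]
      apply Finset.sum_congr rfl
      intro H hHm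
      rw [mem_filter] at hHm
      have e1 : (B ∩ (H \ L)).card = (B ∩ H).card - x := by
        rw [hx, ← card_sdiff_of_subset (Finset.inter_subset_inter_left hHm.2)]
        congr 1
        ext y
        simp only [mem_inter, mem_sdiff]
        tauto
      rw [e1]
      rcases hHval H hHm.1 hHm.2 with e | e
      · rw [e, if_neg (by omega)]; omega
      · rw [e, if_pos rfl]; omega
    have u3 : (B \ L).card = a 4 - x := by
      rw [card_sdiff, hBk, Finset.inter_comm, ← hx]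
    rw [u2, u3] at u1
    obtain ⟨NB, hNB⟩ : ∃ NB, NB = (((Fl 4).filter (fun H => L ⊆ H)).filter
      (fun H => (B ∩ H).card = a 3)).card := ⟨_, rfl⟩
    rw [← hNB] at u1
    have z6 : (NH : ℤ) * (a 2 - x) + NB * (a 3 - a 2) = (a 4 - x) * (n + 1) := by
      have := u1
      zify [(by omega : x ≤ a 2), l2.le, (by omega : x ≤ a 4)] at this
      exact this
    have z7 : ((n : ℤ) + 1) * s * i = (1 + s) * ((n + 1) * (1 + s) - NB) := by
      apply mul_right_cancel₀ hD0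
      linear_combination (-((n : ℤ) + 1) * s) * z5 + ((1 : ℤ) + s) * z6 - ((a 2 : ℤ) - x) * z4 -
        ((n : ℤ) + 1) * (1 + s) * z1
    have : ((a 4 - a 2 : ℕ) : ℤ) ∣ ((n * (n + 1) * (a 2 - x) : ℕ) : ℤ) := by
      rw [cast1, Nat.cast_mul, cast3]
      push_cast
      refine ⟨((n : ℤ) + 1) * i - ((n + 1) * (1 + s) - NB), ?_⟩
      have e : (a 4 : ℤ) - a 2 = (a 3 - a 2) * (1 + s) := by linear_combination -z1
      rw [e]
      linear_combination ((n : ℤ) + 1) * z5 - ((a 3 : ℤ) - a 2) * z7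
    exact_mod_cast this

end Pool.Agent.TH846.PMDWin
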