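import Mathlib

set_option autoImplicit false

open PowerSeries

namespace Pool.Agent.TH846.Diag

/-- `V = 3 + 3 y + y ^ 2`. -/
noncomputable def V : PowerSeries ℚ := 3 + 3 * X + X ^ 2

/-- `U = 1 + y`. -/
noncomputable def U : PowerSeries ℚ := 1 + X

theorem three_eq : (3 : PowerSeries ℚ) = C (3 : ℚ) := (map_ofNat (C (R := ℚ)) 3).symm

theorem constV : constantCoeff V = 3 := by
  unfold V
  rw [three_eq]
  simp

theorem V_mul_inv : V * V⁻¹ = 1 := by
  apply PowerSeries.mul_inv_cancel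
  rw [constV]; norm_num

theorem dV : derivative ℚ V = 3 + 2 * X := by
  have h3 : (3 : PowerSeries ℚ) = C (3 : ℚ) := three_eq
  unfold V
  rw [h3]
  simp only [map_add, Derivation.leibniz, Derivation.leibniz_pow, derivative_C, derivative_X]
  simp

theorem dU : derivative ℚ U = 1 := by
  unfold U
  simp only [map_add, derivative_X]
  rw [derivative_one, zero_add]

/-- The coefficients `t(p, n) = [y^n] 3 (1+y)^p / V^(n+1)`. -/
noncomputable def t (p n : ℕ) : ℚ := coeff n (3 * U ^ p * V⁻¹ ^ (n + 1))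

theorem t_zero (p : ℕ) : t p 0 = 1 := by
  unfold t
  rw [coeff_zero_eq_constantCoeff_apply]
  have h3 : (3 : PowerSeries ℚ) = C (3 : ℚ) := three_eq
  simp only [map_mul, map_pow, PowerSeries.constantCoeff_inv, constV]
  rw [h3]
  simp [U]

theorem t_succ (p n : ℕ) : 3 * ((n : ℚ) + 1) * t (p + 3) (n + 1) = ((p : ℚ) + 1) * t p n := by
  have key : coeff (n + 1) (X * derivative ℚ (U ^ (p + 1) * V⁻¹ ^ (n + 1))) =
      ((n : ℚ) + 1) * coeff (n + 1) (U ^ (p + 1) * V⁻¹ ^ (n + 1)) := by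
    rw [coeff_succ_X_mul, coeff_derivative]
    ring
  have hd : derivative ℚ (U ^ (p + 1) * V⁻¹ ^ (n + 1)) =
      ((p : PowerSeries ℚ) + 1) * (U ^ p * V⁻¹ ^ (n + 1)) -
        ((n : PowerSeries ℚ) + 1) * (U ^ (p + 1) * V⁻¹ ^ (n + 2) * (3 + 2 * X)) := by
    rw [Derivation.leibniz, Derivation.leibniz_pow, Derivation.leibniz_pow, derivative_inv', dV, dU]
    simp only [smul_eq_mul, nsmul_eq_mul, Nat.add_sub_cancel]
    push_cast
    ring
  rw [hd] at key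
  have hV : (U ^ (p + 1) * V⁻¹ ^ (n + 1)) = U ^ (p + 1) * V⁻¹ ^ (n + 2) * V := by
    have : V⁻¹ ^ (n + 2) * V = V⁻¹ ^ (n + 1) * (V * V⁻¹) := by ring
    rw [mul_assoc, this, V_mul_inv, mul_one]
  have hc : ∀ (a : ℕ) (f : PowerSeries ℚ) (k : ℕ),
      coeff k (((a : PowerSeries ℚ) + 1) * f) = ((a : ℚ) + 1) * coeff k f := by
    intro a f k
    have : ((a : PowerSeries ℚ) + 1) = C ((a : ℚ) + 1) := by
      rw [map_add, map_one, map_natCast]
    rw [this, coeff_C_mul]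
  have h1 : coeff (n + 1) (X * (((p : PowerSeries ℚ) + 1) * (U ^ p * V⁻¹ ^ (n + 1)))) =
      ((p : ℚ) + 1) * coeff n (U ^ p * V⁻¹ ^ (n + 1)) := by
    rw [coeff_succ_X_mul, hc]
  have h2 : U ^ (p + 1) * V⁻¹ ^ (n + 2) * V + X * (U ^ (p + 1) * V⁻¹ ^ (n + 2) * (3 + 2 * X)) =
      3 * U ^ (p + 3) * V⁻¹ ^ (n + 2) := by
    have e : V + X * (3 + 2 * X) = 3 * U ^ 2 := by unfold V U; ring
    calc _ = U ^ (p + 1) * V⁻¹ ^ (n + 2) * (V + X * (3 + 2 * X)) := by ring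
      _ = _ := by rw [e]; ring
  have h3 : ((n : ℚ) + 1) * coeff (n + 1) (3 * U ^ (p + 3) * V⁻¹ ^ (n + 2)) =
      ((p : ℚ) + 1) * coeff n (U ^ p * V⁻¹ ^ (n + 1)) := by
    rw [← h2, map_add, mul_add, ← hV, ← key, mul_sub, map_sub, h1]
    have : X * (((n : PowerSeries ℚ) + 1) * (U ^ (p + 1) * V⁻¹ ^ (n + 2) * (3 + 2 * X))) =
      ((n : PowerSeries ℚ) + 1) * (X * (U ^ (p + 1) * V⁻¹ ^ (n + 2) * (3 + 2 * X))) := by ring
    rw [this, hc]
    ring
  have h4 : t p n = 3 * coeff n (U ^ p * V⁻¹ ^ (n + 1)) := by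
    unfold t
    have : (3 : PowerSeries ℚ) = C (3 : ℚ) := three_eq
    rw [mul_assoc, this, coeff_C_mul]
  rw [h4]
  have h5 : t (p + 3) (n + 1) = coeff (n + 1) (3 * U ^ (p + 3) * V⁻¹ ^ (n + 2)) := rfl
  rw [h5]
  linarith

/-- `b n = [y^n] 3 (1+y)^(3n) / V^(n+1)`, equal to `(1/3)_n / n!`. -/
noncomputable def b (n : ℕ) : ℚ := t (3 * n) n

theorem b_zero : b 0 = 1 := t_zero 0

theorem b_succ (n : ℕ) : 3 * ((n : ℚ) + 1) * b (n + 1) = (3 * (n : ℚ) + 1) * b n := by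
  unfold b
  have := t_succ (3 * n) n
  push_cast at this
  exact this

theorem b_succ' (n : ℕ) : b (n + 1) = (3 * (n : ℚ) + 1) / (3 * ((n : ℚ) + 1)) * b n := by
  have h := b_succ n
  have h1 : 3 * ((n : ℚ) + 1) ≠ 0 := by positivity
  field_simp
  linarith

theorem f2_coeff (n : ℕ) : b (3 * n) * b n =
    ((ascPochhammer ℚ n).eval (1/9 : ℚ) * (ascPochhammer ℚ n).eval (4/9 : ℚ) *
      (ascPochhammer ℚ n).eval (7/9 : ℚ)) /
      ((ascPochhammer ℚ n).eval (2/3 : ℚ) * ((n.factorial : ℚ) ^ 2)) := by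
  induction n with
  | zero => simp [b_zero]
  | succ n ih =>
    have e : 3 * (n + 1) = 3 * n + 1 + 1 + 1 := by ring
    rw [e, b_succ' (3 * n + 1 + 1), b_succ' (3 * n + 1), b_succ' (3 * n), b_succ' n]
    rw [ascPochhammer_succ_eval, ascPochhammer_succ_eval, ascPochhammer_succ_eval,
      ascPochhammer_succ_eval, Nat.factorial_succ]
    have hp : (ascPochhammer ℚ n).eval (2/3 : ℚ) ≠ 0 :=
      (ascPochhammer_pos n (2/3 : ℚ) (by norm_num)).ne'
    have hf : (n.factorial : ℚ) ≠ 0 := by positivity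
    rw [eq_div_iff (by positivity)] at ih
    push_cast
    have h2 : (2 : ℚ) / 3 + n ≠ 0 := by positivity
    rw [eq_div_iff (by positivity)]
    have h1 : (n : ℚ) + 1 ≠ 0 := by positivity
    have h3 : 3 * (n : ℚ) + 1 ≠ 0 := by positivity
    have h4 : 3 * (n : ℚ) + 1 + 1 ≠ 0 := by positivity
    have h5 : 3 * (n : ℚ) + 1 + 1 + 1 ≠ 0 := by positivity
    calc _ = (b (3 * n) * b n * ((ascPochhammer ℚ n).eval (2/3 : ℚ) * ((n.factorial : ℚ) ^ 2))) *
        ((3 * (3 * (n : ℚ) + 1 + 1) + 1) / (3 * (3 * (n : ℚ) + 1 + 1 + 1)) *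
          ((3 * (3 * (n : ℚ) + 1) + 1) / (3 * (3 * (n : ℚ) + 1 + 1))) *
          ((3 * (3 * (n : ℚ)) + 1) / (3 * (3 * (n : ℚ) + 1))) *
          ((3 * (n : ℚ) + 1) / (3 * ((n : ℚ) + 1))) * (2 / 3 + n) * ((n : ℚ) + 1) ^ 2) := by
          ring
      _ = _ := by
        rw [ih]
        field_simp
        ring

end Pool.Agent.TH846.Diag
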