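import Pool.Agent.TH846.DiagA

set_option autoImplicit false

open PowerSeries

namespace Pool.Agent.TH846.Diag

/-- `IsDiag σ a`: the sequence `a` is the diagonal of a rational function in variables `σ`. -/
def IsDiag (σ : Type) (a : ℕ → ℚ) : Prop :=
  ∃ P Q : MvPolynomial σ ℚ, MvPolynomial.constantCoeff Q ≠ 0 ∧
    ∃ S : MvPowerSeries σ ℚ, S * (Q : MvPowerSeries σ ℚ) = (P : MvPowerSeries σ ℚ) ∧
      ∀ (n : ℕ) (d : σ →₀ ℕ), (∀ i, d i = n) → MvPowerSeries.coeff d S = a n

theorem IsDiag.transport {σ τ : Type} [Finite σ] (e : σ ≃ τ) {a : ℕ → ℚ} (h : IsDiag σ a) :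
    IsDiag τ a := by
  obtain ⟨P, Q, hQ, S, hS, hd⟩ := h
  refine ⟨MvPolynomial.rename e P, MvPolynomial.rename e Q, ?_, MvPowerSeries.rename e S, ?_, ?_⟩
  · rwa [MvPolynomial.constantCoeff_rename]
  · rw [← MvPowerSeries.rename_coe, ← MvPowerSeries.rename_coe, ← map_mul, hS]
  · intro n d hdn
    have : d = Finsupp.embDomain e.toEmbedding (Finsupp.equivMapDomain e.symm d) := by
      ext i
      obtain ⟨j, rfl⟩ := e.surjective i
      have := Finsupp.embDomain_apply_self e.toEmbedding (Finsupp.equivMapDomain e.symm d) j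
      simp only [Equiv.coe_toEmbedding] at this
      rw [this]
      simp [Finsupp.equivMapDomain_apply]
    rw [this]
    have h2 := MvPowerSeries.coeff_embDomain_rename e.toEmbedding S
      (Finsupp.equivMapDomain e.symm d)
    simp only [Equiv.coe_toEmbedding] at h2
    rw [h2]
    apply hd
    intro i
    rw [Finsupp.equivMapDomain_apply]
    exact hdn _

theorem IsDiag.mul {σ τ : Type} [Finite σ] [Finite τ] {a c : ℕ → ℚ} (h : IsDiag σ a)
    (h' : IsDiag τ c) : IsDiag (σ ⊕ τ) (fun n => a n * c n) := by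
  classical
  obtain ⟨P, Q, hQ, S, hS, hd⟩ := h
  obtain ⟨P', Q', hQ', S', hS', hd'⟩ := h'
  refine ⟨MvPolynomial.rename Sum.inl P * MvPolynomial.rename Sum.inr P',
    MvPolynomial.rename Sum.inl Q * MvPolynomial.rename Sum.inr Q', ?_,
    MvPowerSeries.rename Sum.inl S * MvPowerSeries.rename Sum.inr S', ?_, ?_⟩
  · rw [map_mul, MvPolynomial.constantCoeff_rename, MvPolynomial.constantCoeff_rename]
    exact mul_ne_zero hQ hQ'
  · rw [MvPolynomial.coe_mul, MvPolynomial.coe_mul, ← MvPowerSeries.rename_coe,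
      ← MvPowerSeries.rename_coe, ← MvPowerSeries.rename_coe, ← MvPowerSeries.rename_coe,
      ← hS, ← hS', map_mul, map_mul]
    ring
  · intro n d hdn
    set il : σ ↪ σ ⊕ τ := ⟨Sum.inl, Sum.inl_injective⟩ with hil
    set ir : τ ↪ σ ⊕ τ := ⟨Sum.inr, Sum.inr_injective⟩ with hir
    set d1 : σ →₀ ℕ := Finsupp.comapDomain Sum.inl d Sum.inl_injective.injOn with hd1
    set d2 : τ →₀ ℕ := Finsupp.comapDomain Sum.inr d Sum.inr_injective.injOn with hd2
    have e1 : ∀ i, Finsupp.embDomain il d1 (Sum.inl i) = d (Sum.inl i) := fun i => by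
      have := Finsupp.embDomain_apply_self il d1 i
      rw [show il i = Sum.inl i from rfl] at this
      rw [this, hd1, Finsupp.comapDomain_apply]
    have e1' : ∀ j, Finsupp.embDomain il d1 (Sum.inr j) = 0 := fun j => by
      apply Finsupp.embDomain_of_notMem_range
      rintro ⟨i, hi⟩
      exact absurd hi (by simp [hil])
    have e2 : ∀ j, Finsupp.embDomain ir d2 (Sum.inr j) = d (Sum.inr j) := fun i => by
      have := Finsupp.embDomain_apply_self ir d2 i
      rw [show ir i = Sum.inr i from rfl] at this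
      rw [this, hd2, Finsupp.comapDomain_apply]
    have e2' : ∀ i, Finsupp.embDomain ir d2 (Sum.inl i) = 0 := fun j => by
      apply Finsupp.embDomain_of_notMem_range
      rintro ⟨i, hi⟩
      exact absurd hi (by simp [hir])
    have hsum : Finsupp.embDomain il d1 + Finsupp.embDomain ir d2 = d := by
      ext i
      rcases i with i | j
      · rw [Finsupp.add_apply, e1, e2', add_zero]
      · rw [Finsupp.add_apply, e1', e2, zero_add]
    rw [MvPowerSeries.coeff_mul,
      Finset.sum_eq_single (Finsupp.embDomain il d1, Finsupp.embDomain ir d2)]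
    · have h1 : MvPowerSeries.coeff (Finsupp.embDomain il d1)
          (MvPowerSeries.rename (Sum.inl : σ → σ ⊕ τ) S) = MvPowerSeries.coeff d1 S :=
        MvPowerSeries.coeff_embDomain_rename il S d1
      have h2 : MvPowerSeries.coeff (Finsupp.embDomain ir d2)
          (MvPowerSeries.rename (Sum.inr : τ → σ ⊕ τ) S') = MvPowerSeries.coeff d2 S' :=
        MvPowerSeries.coeff_embDomain_rename ir S' d2
      rw [h1, h2, hd n d1, hd' n d2]
      · intro i; rw [hd2, Finsupp.comapDomain_apply]; exact hdn _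
      · intro i; rw [hd1, Finsupp.comapDomain_apply]; exact hdn _
    · rintro ⟨x, y⟩ hxy hne
      rw [Finset.HasAntidiagonal.mem_antidiagonal] at hxy
      by_contra hcon
      have hx : x ∈ Set.range (Finsupp.mapDomain (Sum.inl : σ → σ ⊕ τ)) := by
        by_contra hx
        apply hcon
        rw [MvPowerSeries.coeff_rename_eq_zero _ _ hx, zero_mul]
      have hy : y ∈ Set.range (Finsupp.mapDomain (Sum.inr : τ → σ ⊕ τ)) := by
        by_contra hy
        apply hcon
        rw [MvPowerSeries.coeff_rename_eq_zero _ _ hy, mul_zero]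
      obtain ⟨x', rfl⟩ := hx
      obtain ⟨y', rfl⟩ := hy
      have a1 : ∀ j, Finsupp.mapDomain (Sum.inl : σ → σ ⊕ τ) x' (Sum.inr j) = 0 := fun j => by
        apply Finsupp.mapDomain_of_notMem_range
        rintro ⟨i, hi⟩
        exact absurd hi (by simp)
      have a2 : ∀ j, Finsupp.mapDomain (Sum.inr : τ → σ ⊕ τ) y' (Sum.inl j) = 0 := fun j => by
        apply Finsupp.mapDomain_of_notMem_range
        rintro ⟨i, hi⟩
        exact absurd hi (by simp)
      apply hne
      simp only at hxy
      have c1 : Finsupp.mapDomain (Sum.inl : σ → σ ⊕ τ) x' = Finsupp.embDomain il d1 := by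
        ext i
        rcases i with i | j
        · rw [e1, ← hxy, Finsupp.add_apply, a2, add_zero]
        · rw [e1', a1]
      have c2 : Finsupp.mapDomain (Sum.inr : τ → σ ⊕ τ) y' = Finsupp.embDomain ir d2 := by
        ext i
        rcases i with i | j
        · rw [e2', a2]
        · rw [e2, ← hxy, Finsupp.add_apply, a1, zero_add]
      rw [c1, c2]
    · intro hn
      exact absurd (Finset.HasAntidiagonal.mem_antidiagonal.mpr hsum) hn

end Pool.Agent.TH846.Diag
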