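import Pool.Agent.TH846.DiagB

set_option autoImplicit false

open PowerSeries

namespace Pool.Agent.TH846.Diag

/-- The isomorphism of series in two variables with series whose coefficients are series. -/
noncomputable abbrev Phi : MvPowerSeries (Option Unit) ℚ ≃ₐ[ℚ] PowerSeries (PowerSeries ℚ) :=
  MvPowerSeries.optionEquivLeft Unit ℚ

theorem isDiag_of_mk (s : ℕ → PowerSeries ℚ) (P Q : MvPolynomial (Option Unit) ℚ)
    (hQ : MvPolynomial.constantCoeff Q ≠ 0)
    (h : PowerSeries.mk s * Phi (Q : MvPowerSeries (Option Unit) ℚ) =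
      Phi (P : MvPowerSeries (Option Unit) ℚ)) :
    IsDiag (Option Unit) (fun n => coeff n (s n)) := by
  refine ⟨P, Q, hQ, Phi.symm (PowerSeries.mk s), ?_, ?_⟩
  · apply Phi.injective
    rw [map_mul, AlgEquiv.apply_symm_apply, h]
  · intro n d hd
    have hdd : d = (Finsupp.single () n).optionElim n := by
      ext i
      rcases i with _ | i
      · rw [hd, Finsupp.optionElim_apply_none]
      · rw [hd, Finsupp.optionElim_apply_some]
        simp
    have := MvPowerSeries.coeff_coeff_optionEquivLeft (Phi.symm (PowerSeries.mk s)) n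
      (Finsupp.single () n)
    rw [hdd, ← this, AlgEquiv.apply_symm_apply, coeff_mk]
    rfl

/-- First variable. -/
noncomputable def xx : MvPolynomial (Option Unit) ℚ := MvPolynomial.X none
/-- Second variable. -/
noncomputable def yy : MvPolynomial (Option Unit) ℚ := MvPolynomial.X (some ())

theorem Phi_xx : Phi (xx : MvPowerSeries (Option Unit) ℚ) = PowerSeries.X := by
  unfold xx
  rw [MvPolynomial.coe_X]
  exact MvPowerSeries.optionEquivLeft_X_none

theorem Phi_yy : Phi (yy : MvPowerSeries (Option Unit) ℚ) = PowerSeries.C PowerSeries.X := by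
  unfold yy
  rw [MvPolynomial.coe_X]
  exact MvPowerSeries.optionEquivLeft_X_some ()

/-- The map from polynomials. -/
noncomputable def Psi : MvPolynomial (Option Unit) ℚ →+* PowerSeries (PowerSeries ℚ) :=
  (Phi : MvPowerSeries (Option Unit) ℚ →+* PowerSeries (PowerSeries ℚ)).comp
    MvPolynomial.coeToMvPowerSeries.ringHom

theorem Psi_apply (P : MvPolynomial (Option Unit) ℚ) :
    Phi (P : MvPowerSeries (Option Unit) ℚ) = Psi P := rfl

theorem Psi_xx : Psi xx = PowerSeries.X := Phi_xx
theorem Psi_yy : Psi yy = PowerSeries.C PowerSeries.X := Phi_yy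

/-- The denominator for `(1-x)^(-1/3)`. -/
noncomputable def Q2 : MvPolynomial (Option Unit) ℚ :=
  (3 + 3 * yy + yy ^ 2) - xx * (1 + yy) ^ 3

theorem const_xx : MvPolynomial.constantCoeff xx = 0 := by simp [xx]
theorem const_yy : MvPolynomial.constantCoeff yy = 0 := by simp [yy]

theorem coeff_mul_lin (s : ℕ → PowerSeries ℚ) (a c : PowerSeries ℚ) (P0 : PowerSeries ℚ)
    (h0 : s 0 * a = P0) (h1 : ∀ i, s (i + 1) * a = s i * c) :
    PowerSeries.mk s * (PowerSeries.C a - PowerSeries.X * PowerSeries.C c) = PowerSeries.C P0 := by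
  ext1 i
  rw [mul_sub, map_sub, coeff_mul_C, coeff_mk]
  have e : PowerSeries.mk s * (PowerSeries.X * PowerSeries.C c) =
    PowerSeries.mk s * PowerSeries.C c * PowerSeries.X := by ring
  rw [e]
  rcases i with _ | i
  · rw [h0, coeff_zero_mul_X, sub_zero]
    simp
  · rw [coeff_succ_mul_X, coeff_mul_C, coeff_mk, h1, sub_self, coeff_C, if_neg (by omega)]

/-- Coefficients of the series for `b`. -/
noncomputable def s2 (i : ℕ) : PowerSeries ℚ := 3 * U ^ (3 * i) * V⁻¹ ^ (i + 1)

theorem isDiag_b : IsDiag (Option Unit) b := by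
  refine isDiag_of_mk s2 3 Q2 ?_ ?_
  · unfold Q2
    simp only [map_add, map_sub, map_mul, map_pow, map_ofNat, map_one, const_xx, const_yy]
    norm_num
  · rw [Psi_apply, Psi_apply]
    unfold Q2
    simp only [map_add, map_sub, map_mul, map_pow, map_ofNat, map_one, Psi_xx, Psi_yy]
    have e : (3 : PowerSeries (PowerSeries ℚ)) + 3 * C X + C X ^ 2 - X * (1 + C X) ^ 3 =
        C V - X * C (U ^ 3) := by
      unfold V U
      simp only [map_add, map_mul, map_pow, map_ofNat, map_one]
    rw [e]
    have e3 : (3 : PowerSeries (PowerSeries ℚ)) = C 3 := by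
      simp only [map_ofNat]
    rw [e3]
    apply coeff_mul_lin
    · unfold s2
      calc _ = 3 * (V * V⁻¹) := by ring
        _ = 3 := by rw [V_mul_inv, mul_one]
    · intro i
      unfold s2
      calc _ = 3 * U ^ (3 * i) * U ^ 3 * V⁻¹ ^ (i + 1) * (V * V⁻¹) := by ring
        _ = _ := by rw [V_mul_inv]; ring

/-! ### The section -/

/-- `sec f = ∑ f_{3j} y^j`. -/
noncomputable def sec (f : PowerSeries ℚ) : PowerSeries ℚ := PowerSeries.mk fun j => coeff (3 * j) f

theorem sec_add (f g : PowerSeries ℚ) : sec (f + g) = sec f + sec g := by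
  ext j; simp [sec]

theorem sec_sub (f g : PowerSeries ℚ) : sec (f - g) = sec f - sec g := by
  ext j; simp [sec]

theorem sec_C_mul (a : ℚ) (f : PowerSeries ℚ) : sec (C a * f) = C a * sec f := by
  ext j; simp [sec]

theorem sec_mul_X3 (f : PowerSeries ℚ) : sec (f * X ^ 3) = sec f * X := by
  ext j
  rcases j with _ | j
  · simp [sec, coeff_mul_X_pow']
  · rw [coeff_succ_mul_X]
    unfold sec
    rw [coeff_mk, coeff_mk, show 3 * (j + 1) = 3 * j + 3 by ring, coeff_mul_X_pow]

theorem sec_mul_X3_pow (f : PowerSeries ℚ) (k : ℕ) : sec (f * (X ^ 3) ^ k) = sec f * X ^ k := by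
  induction k with
  | zero => simp
  | succ k ih =>
    rw [pow_succ, ← mul_assoc, sec_mul_X3, ih, pow_succ, mul_assoc]

/-- evaluation of a polynomial at a series -/
noncomputable def ev (p : Polynomial ℚ) (z : PowerSeries ℚ) : PowerSeries ℚ :=
  Polynomial.aeval z p

theorem sec_mul_ev (f : PowerSeries ℚ) (p : Polynomial ℚ) :
    sec (f * Polynomial.aeval (X ^ 3 : PowerSeries ℚ) p) =
      sec f * Polynomial.aeval (X : PowerSeries ℚ) p := by
  induction p using Polynomial.induction_on' with
  | add p q hp hq => rw [map_add, map_add, mul_add, mul_add, sec_add, hp, hq]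
  | monomial k a =>
    rw [Polynomial.aeval_monomial, Polynomial.aeval_monomial]
    have e : ∀ z : PowerSeries ℚ, (algebraMap ℚ (PowerSeries ℚ)) a * z = C a * z := fun z => rfl
    rw [e, e]
    calc sec (f * (C a * (X ^ 3) ^ k)) = sec (C a * (f * (X ^ 3) ^ k)) := by ring_nf
      _ = C a * (sec f * X ^ k) := by rw [sec_C_mul, sec_mul_X3_pow]
      _ = _ := by ring

end Pool.Agent.TH846.Diag
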