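import Pool.Agent.TH846.DiagC

set_option autoImplicit false

open PowerSeries

namespace Pool.Agent.TH846.Diag

noncomputable def C0 : PowerSeries ℚ := 729 - 2187 * X + 3645 * X ^ 2 - 4374 * X ^ 3 + 4131 * X ^ 4 - 3159 * X ^ 5 + 1998 * X ^ 6 - 1053 * X ^ 7 + 459 * X ^ 8 - 162 * X ^ 9 + 45 * X ^ 10 - 9 * X ^ 11 + X ^ 12
noncomputable def C1 : PowerSeries ℚ := 54 - 324 * X + 378 * X ^ 2 + 810 * X ^ 3 - 3195 * X ^ 4 + 5661 * X ^ 5 - 7045 * X ^ 6 + 6849 * X ^ 7 - 5409 * X ^ 8 + 3543 * X ^ 9 - 1935 * X ^ 10 + 873 * X ^ 11 - 318 * X ^ 12 + 90 * X ^ 13 - 18 * X ^ 14 + 2 * X ^ 15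
noncomputable def C2 : PowerSeries ℚ := 1 - 9 * X + 45 * X ^ 2 - 156 * X ^ 3 + 414 * X ^ 4 - 882 * X ^ 5 + 1554 * X ^ 6 - 2304 * X ^ 7 + 2907 * X ^ 8 - 3139 * X ^ 9 + 2907 * X ^ 10 - 2304 * X ^ 11 + 1554 * X ^ 12 - 882 * X ^ 13 + 414 * X ^ 14 - 156 * X ^ 15 + 45 * X ^ 16 - 9 * X ^ 17 + X ^ 18
noncomputable def e0 : Polynomial ℚ := 19683 + 2187 * Polynomial.X ^ 2 + 81 * Polynomial.X ^ 4 + Polynomial.X ^ 6
noncomputable def e1 : Polynomial ℚ := 2187 + 32805 * Polynomial.X - 567 * Polynomial.X ^ 2 + 3645 * Polynomial.X ^ 3 + 3 * Polynomial.X ^ 4 + 171 * Polynomial.X ^ 5 + 9 * Polynomial.X ^ 6 + 3 * Polynomial.X ^ 7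
noncomputable def e2 : Polynomial ℚ := 81 - 4374 * Polynomial.X + 12396 * Polynomial.X ^ 2 - 1278 * Polynomial.X ^ 3 + 1503 * Polynomial.X ^ 4 + 60 * Polynomial.X ^ 5 + 126 * Polynomial.X ^ 6 + 18 * Polynomial.X ^ 7 + 3 * Polynomial.X ^ 8
noncomputable def e3 : Polynomial ℚ := 1 + 9 * Polynomial.X + 36 * Polynomial.X ^ 2 + 84 * Polynomial.X ^ 3 + 126 * Polynomial.X ^ 4 + 126 * Polynomial.X ^ 5 + 84 * Polynomial.X ^ 6 + 36 * Polynomial.X ^ 7 + 9 * Polynomial.X ^ 8 + Polynomial.X ^ 9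
noncomputable def n00 : Polynomial ℚ := 19683 - 6561 * Polynomial.X + 1458 * Polynomial.X ^ 2 - 486 * Polynomial.X ^ 3 + 27 * Polynomial.X ^ 4 - 9 * Polynomial.X ^ 5
noncomputable def n01 : Polynomial ℚ := -19683 + 2187 * Polynomial.X - 1458 * Polynomial.X ^ 2 + 162 * Polynomial.X ^ 3 - 27 * Polynomial.X ^ 4 + 3 * Polynomial.X ^ 5
noncomputable def n02 : Polynomial ℚ := 13122 + 972 * Polynomial.X ^ 2 + 18 * Polynomial.X ^ 4
noncomputable def n10 : Polynomial ℚ := 1458 + 28674 * Polynomial.X - 12582 * Polynomial.X ^ 2 + 1953 * Polynomial.X ^ 3 - 972 * Polynomial.X ^ 4 + 27 * Polynomial.X ^ 5 - 18 * Polynomial.X ^ 6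
noncomputable def n11 : Polynomial ℚ := -5832 - 31185 * Polynomial.X + 4158 * Polynomial.X ^ 2 - 2181 * Polynomial.X ^ 3 + 342 * Polynomial.X ^ 4 - 36 * Polynomial.X ^ 5 + 6 * Polynomial.X ^ 6
noncomputable def n12 : Polynomial ℚ := -4860 + 22599 * Polynomial.X - 909 * Polynomial.X ^ 2 + 1701 * Polynomial.X ^ 3 - 27 * Polynomial.X ^ 4 + 36 * Polynomial.X ^ 5
noncomputable def n20 : Polynomial ℚ := 27 - 2169 * Polynomial.X + 10287 * Polynomial.X ^ 2 - 6129 * Polynomial.X ^ 3 + 576 * Polynomial.X ^ 4 - 486 * Polynomial.X ^ 5 - 9 * Polynomial.X ^ 7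
noncomputable def n21 : Polynomial ℚ := -189 + 4620 * Polynomial.X - 10998 * Polynomial.X ^ 2 + 2988 * Polynomial.X ^ 3 - 669 * Polynomial.X ^ 4 + 207 * Polynomial.X ^ 5 - 9 * Polynomial.X ^ 6 + 3 * Polynomial.X ^ 7
noncomputable def n22 : Polynomial ℚ := 774 - 7695 * Polynomial.X + 9369 * Polynomial.X ^ 2 - 1071 * Polynomial.X ^ 3 + 729 * Polynomial.X ^ 4 - 27 * Polynomial.X ^ 5 + 18 * Polynomial.X ^ 6

/-- evaluation of a polynomial at the second variable -/
noncomputable def sub1 (p : Polynomial ℚ) : MvPolynomial (Option Unit) ℚ := Polynomial.aeval yy p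

theorem Psi_sub1 (p : Polynomial ℚ) :
    Psi (sub1 p) = PowerSeries.C (Polynomial.aeval (X : PowerSeries ℚ) p) := by
  unfold sub1
  induction p using Polynomial.induction_on' with
  | add p q hp hq => rw [map_add, map_add, hp, hq, map_add, map_add]
  | monomial k a =>
    rw [Polynomial.aeval_monomial, Polynomial.aeval_monomial, map_mul, map_mul, map_pow, map_pow,
      Psi_yy]
    congr 1
    have : algebraMap ℚ (MvPolynomial (Option Unit) ℚ) a = MvPolynomial.C a := rfl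
    rw [this, ← Psi_apply, MvPolynomial.coe_C]
    exact MvPowerSeries.optionEquivLeft_C a

theorem const_sub1 (p : Polynomial ℚ) :
    MvPolynomial.constantCoeff (sub1 p) = Polynomial.eval 0 p := by
  unfold sub1
  induction p using Polynomial.induction_on' with
  | add p q hp hq => rw [map_add, map_add, hp, hq, Polynomial.eval_add]
  | monomial k a =>
    rw [Polynomial.aeval_monomial, map_mul, map_pow, const_yy, Polynomial.eval_monomial]
    congr 1
    have : algebraMap ℚ (MvPolynomial (Option Unit) ℚ) a = MvPolynomial.C a := rfl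
    rw [this, MvPolynomial.constantCoeff_C]

/-- The denominator. -/
noncomputable def Q1 : MvPolynomial (Option Unit) ℚ :=
  sub1 e0 - xx * sub1 e1 + xx ^ 2 * sub1 e2 - xx ^ 3 * sub1 e3

/-- The numerator. -/
noncomputable def P1 : MvPolynomial (Option Unit) ℚ :=
  sub1 n00 - xx * sub1 n10 + xx ^ 2 * sub1 n20

theorem sec_one : sec 1 = 1 := by
  ext j
  unfold sec
  rw [coeff_mk, coeff_one, coeff_one]
  rcases j with _ | j
  · simp
  · rw [if_neg (by omega), if_neg (by omega)]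

theorem sec_X : sec X = 0 := by
  ext j
  unfold sec
  rw [coeff_mk, coeff_X, if_neg (by omega), map_zero]

theorem sec_X2 : sec (X ^ 2) = 0 := by
  ext j
  unfold sec
  rw [coeff_mk, coeff_X_pow, if_neg (by omega), map_zero]

theorem sec_split (p q r : Polynomial ℚ) :
    sec (Polynomial.aeval (X ^ 3 : PowerSeries ℚ) p + X * Polynomial.aeval (X ^ 3 : PowerSeries ℚ) q
      + X ^ 2 * Polynomial.aeval (X ^ 3 : PowerSeries ℚ) r) =
      Polynomial.aeval (X : PowerSeries ℚ) p := by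
  rw [sec_add, sec_add, sec_mul_ev, sec_mul_ev, sec_X, sec_X2, zero_mul, zero_mul, add_zero,
    add_zero]
  have := sec_mul_ev 1 p
  rw [one_mul, sec_one, one_mul] at this
  exact this

/-- Coefficients before taking the section. -/
noncomputable def G (i : ℕ) : PowerSeries ℚ := 3 * U ^ (9 * i) * V⁻¹ ^ (3 * i + 1)

theorem G_zero : G 0 * V ^ 3 = 3 * V ^ 2 := by
  unfold G
  calc _ = 3 * V ^ 2 * (V * V⁻¹) := by ring
    _ = _ := by rw [V_mul_inv, mul_one]

theorem G_succ (i : ℕ) : G (i + 1) * V ^ 3 = G i * U ^ 9 := by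
  unfold G
  calc _ = 3 * U ^ (9 * i) * U ^ 9 * V⁻¹ ^ (3 * i + 1) * (V * V⁻¹) ^ 3 := by ring
    _ = _ := by rw [V_mul_inv]; ring

theorem ev0 : Polynomial.aeval (X ^ 3 : PowerSeries ℚ) e0 = V ^ 3 * C0 := by
  unfold e0 C0 V
  simp only [map_add, map_sub, map_mul, map_pow, map_ofNat, map_one, Polynomial.aeval_X]
  ring

theorem ev1 : Polynomial.aeval (X ^ 3 : PowerSeries ℚ) e1 = V ^ 3 * C1 + U ^ 9 * C0 := by
  unfold e1 C0 C1 V U
  simp only [map_add, map_sub, map_mul, map_pow, map_ofNat, map_one, Polynomial.aeval_X]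
  ring

theorem ev2 : Polynomial.aeval (X ^ 3 : PowerSeries ℚ) e2 = V ^ 3 * C2 + U ^ 9 * C1 := by
  unfold e2 C1 C2 V U
  simp only [map_add, map_sub, map_mul, map_pow, map_ofNat, map_one, Polynomial.aeval_X]
  ring

theorem ev3 : Polynomial.aeval (X ^ 3 : PowerSeries ℚ) e3 = U ^ 9 * C2 := by
  unfold e3 C2 U
  simp only [map_add, map_sub, map_mul, map_pow, map_ofNat, map_one, Polynomial.aeval_X]
  ring

theorem nv0 : sec (3 * V ^ 2 * C0) = Polynomial.aeval (X : PowerSeries ℚ) n00 := by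
  rw [← sec_split n00 n01 n02]
  congr 1
  unfold n00 n01 n02 C0 V
  simp only [map_add, map_sub, map_neg, map_mul, map_pow, map_ofNat, map_one, Polynomial.aeval_X]
  ring

theorem nv1 : sec (3 * V ^ 2 * C1) = Polynomial.aeval (X : PowerSeries ℚ) n10 := by
  rw [← sec_split n10 n11 n12]
  congr 1
  unfold n10 n11 n12 C1 V
  simp only [map_add, map_sub, map_neg, map_mul, map_pow, map_ofNat, map_one, Polynomial.aeval_X]
  ring

theorem nv2 : sec (3 * V ^ 2 * C2) = Polynomial.aeval (X : PowerSeries ℚ) n20 := by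
  rw [← sec_split n20 n21 n22]
  congr 1
  unfold n20 n21 n22 C2 V
  simp only [map_add, map_sub, map_neg, map_mul, map_pow, map_ofNat, map_one, Polynomial.aeval_X]
  ring

/-- Coefficients of the section series. -/
noncomputable def s1 (i : ℕ) : PowerSeries ℚ := sec (G i)

theorem coeff_mul_cubic (s : ℕ → PowerSeries ℚ) (a0 a1 a2 a3 p0 p1 p2 : PowerSeries ℚ)
    (h0 : s 0 * a0 = p0) (h1 : s 1 * a0 - s 0 * a1 = -p1)
    (h2 : s 2 * a0 - s 1 * a1 + s 0 * a2 = p2)
    (h3 : ∀ i, s (i + 3) * a0 - s (i + 2) * a1 + s (i + 1) * a2 - s i * a3 = 0) :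
    PowerSeries.mk s * (C a0 - X * C a1 + X ^ 2 * C a2 - X ^ 3 * C a3) =
      C p0 - X * C p1 + X ^ 2 * C p2 := by
  have e : PowerSeries.mk s * (C a0 - X * C a1 + X ^ 2 * C a2 - X ^ 3 * C a3) =
      PowerSeries.mk s * C a0 - PowerSeries.mk s * C a1 * X ^ 1 + PowerSeries.mk s * C a2 * X ^ 2 -
        PowerSeries.mk s * C a3 * X ^ 3 := by ring
  have e' : C p0 - X * C p1 + X ^ 2 * C p2 = C p0 - C p1 * X ^ 1 + C p2 * X ^ 2 := by ring
  rw [e, e']
  ext1 i
  simp only [map_sub, map_add, coeff_mul_C, coeff_mk, coeff_mul_X_pow', coeff_C]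
  rcases i with _ | _ | _ | i
  · simpa using h0
  · simp
    linear_combination h1
  · simp
    linear_combination h2
  · have h := h3 i
    simp
    linear_combination h

theorem isDiag_b3 : IsDiag (Option Unit) (fun n => b (3 * n)) := by
  have hb : (fun n => b (3 * n)) = fun n => coeff n (s1 n) := by
    funext n
    unfold s1 sec G b t
    rw [coeff_mk, show 3 * (3 * n) = 9 * n by ring]
  rw [hb]
  refine isDiag_of_mk s1 P1 Q1 ?_ ?_
  · unfold Q1
    simp only [map_add, map_sub, map_mul, map_pow, const_xx, const_sub1]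
    unfold e0
    simp
  · rw [Psi_apply, Psi_apply]
    unfold Q1 P1
    simp only [map_add, map_sub, map_mul, map_pow, Psi_xx, Psi_sub1]
    apply coeff_mul_cubic
    · unfold s1
      rw [← sec_mul_ev, ev0, ← nv0]
      congr 1
      linear_combination C0 * G_zero
    · unfold s1
      rw [← sec_mul_ev, ← sec_mul_ev, ev0, ev1, ← sec_sub, ← nv1]
      have hz : -sec (3 * V ^ 2 * C1) = sec (-(3 * V ^ 2 * C1)) := by
        have := sec_sub 0 (3 * V ^ 2 * C1)
        rw [zero_sub] at this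
        rw [this]
        have h0 : sec 0 = 0 := by ext j; simp [sec]
        rw [h0, zero_sub]
      rw [hz]
      congr 1
      linear_combination C0 * G_succ 0 - C1 * G_zero
    · unfold s1
      rw [← sec_mul_ev, ← sec_mul_ev, ← sec_mul_ev, ev0, ev1, ev2, ← sec_sub, ← sec_add, ← nv2]
      congr 1
      linear_combination C0 * G_succ 1 - C1 * G_succ 0 + C2 * G_zero
    · intro i
      unfold s1
      rw [← sec_mul_ev, ← sec_mul_ev, ← sec_mul_ev, ← sec_mul_ev, ev0, ev1, ev2, ev3, ← sec_sub,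
        ← sec_add, ← sec_sub]
      have h0 : sec 0 = 0 := by ext j; simp [sec]
      rw [← h0]
      congr 1
      linear_combination C0 * G_succ (i + 2) - C1 * G_succ (i + 1) + C2 * G_succ i

end Pool.Agent.TH846.Diag
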